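import Pool.Agent.K9h34.KE.Step

/-!
# Bisection of the directions: balanced blocks
-/

namespace Pool.Agent.K9h34.KE

open KLev Finset Filter Topology

section

variable {sg : ℕ → ℝ} {ι R : Type} [Fintype ι] {k : ℕ}

/-- restriction of the family of events -/
def Blk.comap (S : Blk sg ι R k) {R' : Type} (φ : R' → R) (hφ : Function.Injective φ) :
    Blk sg ι R' k where
  s := S.s
  t := S.t
  a := fun e => S.a (φ e)
  b := fun e => S.b (φ e)
  X := fun e => S.X (φ e)
  Y := fun e => S.Y (φ e)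
  crs := fun e => S.crs (φ e)
  inj := S.inj.comp hφ

end

/-- widths of the bundles -/
lemma widths {sg : ℕ → ℝ} (hsg : StrictMono sg) {δ : ℕ} (hδ : 1 ≤ δ) :
    ∃ h : ℕ → ℝ, (∀ x, 0 < h x) ∧ ∀ j, h (j * (2 * δ)) *
      (sg ((j + 1) * (2 * δ)) - sg (j * (2 * δ) + δ)) =
      h ((j + 1) * (2 * δ)) * (sg (j * (2 * δ) + δ) - sg (j * (2 * δ))) := by
  set Hn : ℕ → ℝ := fun n => Nat.rec (motive := fun _ => ℝ) 1 (fun j v => v *
    (sg ((j + 1) * (2 * δ)) - sg (j * (2 * δ) + δ)) / (sg (j * (2 * δ) + δ) - sg (j * (2 * δ)))) n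
    with hHn
  have hs : ∀ j, Hn (j + 1) = Hn j * (sg ((j + 1) * (2 * δ)) - sg (j * (2 * δ) + δ)) /
    (sg (j * (2 * δ) + δ) - sg (j * (2 * δ))) := fun j => rfl
  have h1 : ∀ j, 0 < sg (j * (2 * δ) + δ) - sg (j * (2 * δ)) := fun j =>
    sub_pos.mpr (hsg (by omega))
  have h2 : ∀ j, 0 < sg ((j + 1) * (2 * δ)) - sg (j * (2 * δ) + δ) := fun j =>
    sub_pos.mpr (hsg (by rw [add_mul]; omega))
  have hp : ∀ j, 0 < Hn j := by
    intro j
    induction j with
    | zero => exact one_pos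
    | succ j ih =>
      rw [hs]
      exact div_pos (mul_pos ih (h2 j)) (h1 j)
  refine ⟨fun x => Hn (x / (2 * δ)), fun x => hp _, fun j => ?_⟩
  have e1 : j * (2 * δ) / (2 * δ) = j := Nat.mul_div_cancel _ (by omega)
  have e2 : (j + 1) * (2 * δ) / (2 * δ) = j + 1 := Nat.mul_div_cancel _ (by omega)
  simp only [e1, e2]
  rw [hs, div_mul_cancel₀ _ (h1 j).ne']

open scoped Classical in
/-- a balanced block: `N` lines with slopes in `2 ^ g * {0, ..., 2 ^ i}`, for each of the `2 ^ i`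
pairs of neighbouring slopes `w` events of depth `k`, and below every event `c` of the lines which
bisect the directions of the other events -/
def Bal (sg : ℕ → ℝ) (g i N k c w : ℕ) : Prop :=
  ∃ (ι Z : Type) (_ : Fintype ι) (_ : Fintype Z) (S : Blk sg ι (Z ⊕ Empty) k),
    Fintype.card ι = N ∧
    (∀ l, ∃ q ≤ 2 ^ i, S.s l = q * 2 ^ g) ∧
    (∀ z, S.s (S.a (Sum.inl z)) = S.s (S.b (Sum.inl z)) + 2 ^ g) ∧
    Wed S ∧
    (∀ q < 2 ^ i, ∑ z, (if S.s (S.b (Sum.inl z)) = q * 2 ^ g then 1 else 0) = w) ∧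
    (∀ g', g = g' + 1 → ∀ e, cnt S (2 ^ g') e = c)

/-- two lines -/
lemma Bal.start (sg : ℕ → ℝ) (g : ℕ) : Bal sg g 0 2 0 0 1 := by
  classical
  refine ⟨Bool, Unit, inferInstance, inferInstance,
    { s := fun l => if l then 2 ^ g else 0
      t := fun _ => 0
      a := fun _ => true
      b := fun _ => false
      X := fun _ => 0
      Y := fun _ => 0
      crs := fun _ => ⟨by simp, by simp, by simp, ?_, by simp⟩
      inj := ?_ }, by simp, ?_, ?_, ?_, ?_, ?_⟩
  · rintro (_ | _) h1 h2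
    · exact absurd rfl h2
    · exact absurd rfl h1
  · rintro (_ | e) (_ | e') _
    · rfl
    · exact e'.elim
    · exact e.elim
    · exact e.elim
  · rintro (_ | _)
    · exact ⟨0, by simp, by simp⟩
    · exact ⟨1, by simp, by simp⟩
  · intro z; simp
  · rintro (⟨⟩ | e) ⟨⟩ h
    · exact absurd rfl h
    · exact e.elim
  · intro q hq
    have : q = 0 := by simpa using hq
    subst this
    simp
  · rintro g' hg (⟨⟩ | e)
    · unfold cnt; simp
    · exact e.elim

section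

variable {sg : ℕ → ℝ} {ι Z : Type} [Fintype ι] [Fintype Z] {k : ℕ}

/-- the children of active events are the new active events -/
def emb {B : ℕ} : ((Z × Fin B) ⊕ (Z × Fin B)) ⊕ Empty → Ch Z Empty B
  | Sum.inl (Sum.inl x) => Sum.inl x
  | Sum.inl (Sum.inr x) => Sum.inr (Sum.inl x)
  | Sum.inr e => e.elim

lemma emb_inj {B : ℕ} : Function.Injective (emb (Z := Z) (B := B)) := by
  rintro ((x | x) | e) ((x' | x') | e') h
  · simp only [emb, Sum.inl.injEq] at h; rw [h]
  · simp [emb] at h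
  · exact e'.elim
  · simp [emb] at h
  · simp only [emb, Sum.inr.injEq, Sum.inl.injEq] at h; rw [h]
  · exact e'.elim
  · exact e.elim
  · exact e.elim
  · exact e.elim

/-- from the uniform description of signs to the wedge property -/
lemma wed_of {Z' U' : Type} {S : Blk sg ι (Z' ⊕ U') k}
    (H : ∀ (v : Z' ⊕ U') (z : Z'), v ≠ Sum.inl z → ∃ P : Prop, ∀ σ : ℕ,
      S.s (S.b (Sum.inl z)) < σ → σ < S.s (S.a (Sum.inl z)) →
      (S.Y (Sum.inl z) + sg σ * (S.X v - S.X (Sum.inl z)) ≠ S.Y v ∧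
        (S.Y (Sum.inl z) + sg σ * (S.X v - S.X (Sum.inl z)) < S.Y v ↔ P))) : Wed S := by
  intro e z hez
  obtain ⟨P, hP⟩ := H e z hez
  by_cases h : P
  · left
    intro σ h1 h2
    exact (hP σ h1 h2).2.mpr h
  · right
    intro σ h1 h2
    rcases lt_trichotomy (S.Y (Sum.inl z) + sg σ * (S.X e - S.X (Sum.inl z))) (S.Y e) with h3 | h3 | h3
    · exact absurd ((hP σ h1 h2).2.mp h3) h
    · exact absurd h3 (hP σ h1 h2).1
    · exact h3

end

end Pool.Agent.K9h34.KE
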