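import Pool.Agent.K9h34.KE.Bal

/-!
# Bisection of the directions: the step for balanced blocks
-/

namespace Pool.Agent.K9h34.KE

open KLev Finset Filter Topology

section

variable {sg : ℕ → ℝ} {ι Z : Type} [Fintype ι] [Fintype Z] {k : ℕ}
variable {S : Blk sg ι (Z ⊕ Empty) k} {δ : ℕ} {h : ℕ → ℝ} (C : Z ⊕ Empty → ℕ)

open scoped Classical in
lemma sum_kids {B : ℕ} (v : Ch Z Empty B) (z₀ : Z) (hv : base v = Sum.inl z₀)
    (T : Z × Fin B → Ch Z Empty B) :
    ∑ x : Z × Fin B, (if T x ≠ v ∧ ((base v = Sum.inl x.1 ∧ loc S δ h C v (T x)) ∨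
      (base v ≠ Sum.inl x.1 ∧ Rel S δ (base v) x.1)) then 1 else 0) =
    ∑ z : Z, ∑ i : Fin B, (if T (z, i) ≠ v ∧ base v ≠ Sum.inl z ∧ Rel S δ (base v) z
      then 1 else 0) +
      ∑ i : Fin B, (if T (z₀, i) ≠ v ∧ loc S δ h C v (T (z₀, i)) then 1 else 0) := by
  rw [Fintype.sum_prod_type]
  have e1 : ∀ z : Z, ∑ i : Fin B, (if T (z, i) ≠ v ∧ ((base v = Sum.inl z ∧ loc S δ h C v (T (z, i))) ∨
      (base v ≠ Sum.inl z ∧ Rel S δ (base v) z)) then 1 else 0) =
      ∑ i : Fin B, (if T (z, i) ≠ v ∧ base v ≠ Sum.inl z ∧ Rel S δ (base v) z then 1 else 0) +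
      (if z = z₀ then ∑ i : Fin B, (if T (z₀, i) ≠ v ∧ loc S δ h C v (T (z₀, i)) then 1 else 0)
        else 0) := by
    intro z
    by_cases hz : z = z₀
    · subst hz
      simp [hv]
    · have h1 : base v ≠ Sum.inl z := by
        rw [hv]; intro h; exact hz (Sum.inl.inj h).symm
      simp [h1, hz]
  rw [Finset.sum_congr rfl (fun z _ => e1 z), Finset.sum_add_distrib]
  simp

open scoped Classical in
lemma sum_other {B : ℕ} (v : Ch Z Empty B) (T : Z × Fin B → Ch Z Empty B)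
    (hT : ∀ x, base (T x) = Sum.inl x.1) :
    ∑ z : Z, ∑ i : Fin B, (if T (z, i) ≠ v ∧ base v ≠ Sum.inl z ∧ Rel S δ (base v) z
      then 1 else 0) = B * cnt S δ (base v) := by
  unfold cnt
  rw [Finset.mul_sum]
  apply Finset.sum_congr rfl
  intro z _
  by_cases hz : base v = Sum.inl z
  · simp [hz]
  · have h1 : ∀ i, T (z, i) ≠ v := by
      intro i h
      apply hz
      rw [← h, hT]
    have h2 : Sum.inl z ≠ base v := Ne.symm hz
    simp only [ne_eq, h1, not_false_eq_true, hz, true_and, h2]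
    unfold Rel
    simp

lemma loc_LL (H : Gap S δ h) {B : ℕ} (z : Z) (i j : Fin B) :
    loc S δ h C (Sum.inl (z, i)) (Sum.inl (z, j)) ↔ (j:ℕ) < i := by
  have h1 := xi_L C H z j i
  have h2 := fac1 H z
  simp only [loc]
  rw [← sub_neg, h1]
  exact sub_lt' h2

lemma loc_LH (H : Gap S δ h) {B : ℕ} (z : Z) (i j : Fin B) :
    loc S δ h C (Sum.inl (z, i)) (Sum.inr (Sum.inl (z, j))) ↔ (j:ℕ) < C (Sum.inl z) - i := by
  have h1 := xi_LH C H z i j
  have h2 := fac1 H z
  simp only [loc]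
  rw [← sub_neg, h1]
  exact half_lt h2

lemma loc_HL (H : Gap S δ h) {B : ℕ} (z : Z) (i j : Fin B) :
    loc S δ h C (Sum.inr (Sum.inl (z, i))) (Sum.inl (z, j)) ↔ (j:ℕ) < C (Sum.inl z) - i := by
  have h1 := xi_LH C H z j i
  have h2 := fac1 H z
  simp only [loc]
  rw [← sub_neg, h1, half_lt h2]
  omega

lemma loc_HH (H : Gap S δ h) {B : ℕ} (z : Z) (i j : Fin B) :
    loc S δ h C (Sum.inr (Sum.inl (z, i))) (Sum.inr (Sum.inl (z, j))) ↔ (j:ℕ) < i := by
  have h1 := xi_H C H z i j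
  have h2 := fac2 H z
  simp only [loc]
  rw [← sub_neg, h1]
  exact sub_lt' h2

open scoped Classical in
/-- the relations inside one group of new events -/
lemma sum_local (H : Gap S δ h) {B : ℕ} (hC : ∀ e, C e + 1 = B) (v : Ch Z Empty B) (z₀ : Z)
    (hv : base v = Sum.inl z₀) :
    ∑ i : Fin B, (if (Sum.inl (z₀, i) : Ch Z Empty B) ≠ v ∧
      loc S δ h C v (Sum.inl (z₀, i)) then 1 else 0) +
    ∑ i : Fin B, (if (Sum.inr (Sum.inl (z₀, i)) : Ch Z Empty B) ≠ v ∧
      loc S δ h C v (Sum.inr (Sum.inl (z₀, i))) then 1 else 0) = B - 1 := by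
  have hCz := hC (Sum.inl z₀)
  rcases v with ⟨z, i⟩ | ⟨z, i⟩ | ⟨w, i⟩
  · simp only [base, Sum.inl.injEq] at hv
    subst hv
    have hi := i.2
    rw [cnt_lt (j := i) (by omega) _ (fun u => ?_), cnt_lt (j := C (Sum.inl z) - i)
      (by omega) _ (fun u => ?_)]
    · omega
    · rw [loc_LH C H]
      simp
    · rw [loc_LL C H]
      constructor
      · exact fun h => h.2
      · intro h
        refine ⟨?_, h⟩
        intro h'
        simp only [Sum.inl.injEq, Prod.mk.injEq, true_and] at h'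
        rw [h'] at h
        exact lt_irrefl _ h
  · simp only [base, Sum.inl.injEq] at hv
    subst hv
    have hi := i.2
    rw [cnt_lt (j := C (Sum.inl z) - i) (by omega) _ (fun u => ?_), cnt_lt (j := i)
      (by omega) _ (fun u => ?_)]
    · omega
    · rw [loc_HH C H]
      constructor
      · exact fun h => h.2
      · intro h
        refine ⟨?_, h⟩
        intro h'
        simp only [Sum.inr.injEq, Sum.inl.injEq, Prod.mk.injEq, true_and] at h'
        rw [h'] at h
        exact lt_irrefl _ h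
    · rw [loc_HL C H]
      simp
  · simp [base] at hv

end

/-- the number of active events -/
lemma card_active {sg : ℕ → ℝ} {ι Z : Type} [Fintype ι] [Fintype Z] {k g i w : ℕ}
    (S : Blk sg ι (Z ⊕ Empty) k) (h1 : ∀ l, ∃ q ≤ 2 ^ i, S.s l = q * 2 ^ g)
    (h2 : ∀ z, S.s (S.a (Sum.inl z)) = S.s (S.b (Sum.inl z)) + 2 ^ g)
    (h3 : ∀ q < 2 ^ i, ∑ z, (if S.s (S.b (Sum.inl z)) = q * 2 ^ g then 1 else 0) = w) :
    Fintype.card Z = 2 ^ i * w := by
  have e1 : ∀ z : Z, ∑ q ∈ Finset.range (2 ^ i), (if S.s (S.b (Sum.inl z)) = q * 2 ^ g then 1 else 0)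
      = 1 := by
    intro z
    obtain ⟨q, hq, hs⟩ := h1 (S.b (Sum.inl z))
    obtain ⟨q', hq', hs'⟩ := h1 (S.a (Sum.inl z))
    have h4 := h2 z
    have hg : 0 < 2 ^ g := by positivity
    have hqq : q' = q + 1 := by
      have : q' * 2 ^ g = (q + 1) * 2 ^ g := by rw [← hs', h4, hs]; ring
      exact Nat.eq_of_mul_eq_mul_right hg this
    rw [Finset.sum_eq_single_of_mem q (Finset.mem_range.mpr (by omega))]
    · simp [hs]
    · intro q'' _ hne
      rw [if_neg]
      intro h5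
      apply hne
      rw [hs] at h5
      exact (Nat.eq_of_mul_eq_mul_right hg h5).symm
  calc Fintype.card Z = ∑ z : Z, 1 := by simp
    _ = ∑ z : Z, ∑ q ∈ Finset.range (2 ^ i),
        (if S.s (S.b (Sum.inl z)) = q * 2 ^ g then 1 else 0) := by
      apply Finset.sum_congr rfl
      intro z _
      rw [e1 z]
    _ = ∑ q ∈ Finset.range (2 ^ i), ∑ z : Z,
        (if S.s (S.b (Sum.inl z)) = q * 2 ^ g then 1 else 0) := Finset.sum_comm
    _ = ∑ q ∈ Finset.range (2 ^ i), w := by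
      apply Finset.sum_congr rfl
      intro q hq
      exact h3 q (Finset.mem_range.mp hq)
    _ = 2 ^ i * w := by simp

theorem Bal.step {sg : ℕ → ℝ} (hsg : StrictMono sg) {g i N k c w : ℕ}
    (h : Bal sg (g + 1) i N k c w) (B : ℕ) (hB : 1 ≤ B) :
    Bal sg g (i + 1) (B * N + 2 ^ i * w) (B * k + (B + c - 1)) (2 * B * c + (B - 1)) (B * w) := by
  classical
  obtain ⟨ι, Z, _, _, S, hN, hs, hg, hW, hw, hc⟩ := h
  have hcZ := card_active S hs hg hw
  obtain ⟨hw', hwp, hwr⟩ := widths hsg (δ := 2 ^ g) Nat.one_le_two_pow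
  have e22 : 2 ^ (g + 1) = 2 * 2 ^ g := by rw [pow_succ]; ring
  have hgap : Gap S (2 ^ g) hw' := by
    refine ⟨hsg, hwp, Nat.one_le_two_pow, fun z => by rw [hg z, e22], fun z => ?_⟩
    obtain ⟨q, hq, h1⟩ := hs (S.b (Sum.inl z))
    have h2 := hwr q
    have h3 : S.s (S.a (Sum.inl z)) = (q + 1) * (2 * 2 ^ g) := by rw [hg z, h1, e22]; ring
    rw [h3, h1, e22]
    exact h2
  have hcc := hc g rfl
  set C : Z ⊕ Empty → ℕ := fun _ => B - 1 with hC
  have hC1 : ∀ e, C e < B := fun e => by simp only [hC]; omega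
  obtain ⟨ε, S', hs', -, ha', hb', hsg⟩ := (Pool.Agent.K9h34.KE.step (C := C) hgap hW (m := B)
    (B := B) (K₀ := B + c - 1) le_rfl hC1 (fun e => by simp only [hC]; omega)
    (fun e => by rw [hcc e]; simp only [hC]; omega)).exists
  have hval : ∀ x : (Z × Fin B) ⊕ (Z × Fin B), ∃ z,
      base (emb (Sum.inl x) : Ch Z Empty B) = Sum.inl z := by
    rintro (⟨z, j⟩ | ⟨z, j⟩)
    · exact ⟨z, rfl⟩
    · exact ⟨z, rfl⟩
  refine ⟨Ln ι Z B, (Z × Fin B) ⊕ (Z × Fin B), inferInstance, inferInstance,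
    S'.comap emb emb_inj, ?_, ?_, ?_, ?_, ?_, ?_⟩
  · simp only [Fintype.card_sum, Fintype.card_prod, Fintype.card_fin, hN, hcZ]
    ring
  · intro l
    simp only [Blk.comap, hs']
    rcases l with ⟨l, u⟩ | z
    · obtain ⟨q, hq, h1⟩ := hs l
      refine ⟨2 * q, by rw [pow_succ]; omega, ?_⟩
      simp only [sl, h1, pow_succ]
      ring
    · obtain ⟨q, hq, h1⟩ := hs (S.b (Sum.inl z))
      obtain ⟨q', hq', h2⟩ := hs (S.a (Sum.inl z))
      have h4 := hg z
      have hg0 : 0 < 2 ^ (g + 1) := by positivity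
      have hqq : q' = q + 1 := by
        have : q' * 2 ^ (g + 1) = (q + 1) * 2 ^ (g + 1) := by rw [← h2, h4, h1]; ring
        exact Nat.eq_of_mul_eq_mul_right hg0 this
      refine ⟨2 * q + 1, by rw [pow_succ]; omega, ?_⟩
      simp only [sl, h1, pow_succ]
      ring
  · intro x
    simp only [Blk.comap, hs', ha', hb']
    rcases x with ⟨z, j⟩ | ⟨z, j⟩
    · simp only [emb, na, nb, sl]
    · simp only [emb, na, nb, sl, hg z, pow_succ]
      ring
  · apply wed_of
    intro v x hvx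
    obtain ⟨z, hz⟩ := hval x
    exact ⟨_, hsg (emb v) (emb (Sum.inl x)) (fun h' => hvx (emb_inj h')) z hz⟩
  · intro q hq
    simp only [Blk.comap, hs', hb']
    rw [Fintype.sum_sum_type, Fintype.sum_prod_type, Fintype.sum_prod_type]
    have t1 : ∀ z : Z, ∑ j : Fin B, (if sl S (2 ^ g) (nb S (le_refl B)
        (emb (Sum.inl (Sum.inl (z, j))))) = q * 2 ^ g then 1 else 0) =
        B * (if S.s (S.b (Sum.inl z)) = q * 2 ^ g then 1 else 0) := by
      intro z
      have t0 : ∀ j : Fin B, sl S (2 ^ g) (nb S (le_refl B)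
        (emb (Sum.inl (Sum.inl (z, j))))) = S.s (S.b (Sum.inl z)) := fun j => rfl
      simp only [t0, Finset.sum_const, Finset.card_univ, Fintype.card_fin, smul_eq_mul]
    have t2 : ∀ z : Z, ∑ j : Fin B, (if sl S (2 ^ g) (nb S (le_refl B)
        (emb (Sum.inl (Sum.inr (z, j))))) = q * 2 ^ g then 1 else 0) =
        B * (if S.s (S.b (Sum.inl z)) + 2 ^ g = q * 2 ^ g then 1 else 0) := by
      intro z
      have t0 : ∀ j : Fin B, sl S (2 ^ g) (nb S (le_refl B)
        (emb (Sum.inl (Sum.inr (z, j))))) = S.s (S.b (Sum.inl z)) + 2 ^ g := fun j => rfl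
      simp only [t0, Finset.sum_const, Finset.card_univ, Fintype.card_fin, smul_eq_mul]
    rw [Finset.sum_congr rfl (fun z _ => t1 z), Finset.sum_congr rfl (fun z _ => t2 z),
      ← Finset.mul_sum, ← Finset.mul_sum, ← mul_add]
    congr 1
    have hg0 : 0 < 2 ^ g := by positivity
    rcases Nat.even_or_odd' q with ⟨q', hq' | hq'⟩
    · have e1 := hw q' (by rw [pow_succ] at hq; omega)
      have e2 : ∀ z : Z, (if S.s (S.b (Sum.inl z)) = q * 2 ^ g then 1 else 0) =
          (if S.s (S.b (Sum.inl z)) = q' * 2 ^ (g + 1) then 1 else 0) := by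
        intro z
        have : q * 2 ^ g = q' * 2 ^ (g + 1) := by rw [hq', pow_succ]; ring
        rw [this]
      have e3 : ∀ z : Z, (if S.s (S.b (Sum.inl z)) + 2 ^ g = q * 2 ^ g then 1 else 0) = 0 := by
        intro z
        rw [if_neg]
        obtain ⟨q'', -, h1⟩ := hs (S.b (Sum.inl z))
        rw [h1, hq']
        intro h2
        have h3 : (2 * q'' + 1) * 2 ^ g = (2 * q') * 2 ^ g := by rw [← h2, pow_succ]; ring
        have := Nat.eq_of_mul_eq_mul_right hg0 h3
        omega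
      rw [Finset.sum_congr rfl (fun z _ => e2 z), Finset.sum_congr rfl (fun z _ => e3 z), e1]
      simp
    · have e1 := hw q' (by rw [pow_succ] at hq; omega)
      have e2 : ∀ z : Z, (if S.s (S.b (Sum.inl z)) + 2 ^ g = q * 2 ^ g then 1 else 0) =
          (if S.s (S.b (Sum.inl z)) = q' * 2 ^ (g + 1) then 1 else 0) := by
        intro z
        have : q * 2 ^ g = q' * 2 ^ (g + 1) + 2 ^ g := by rw [hq', pow_succ]; ring
        rw [this]
        simp
      have e3 : ∀ z : Z, (if S.s (S.b (Sum.inl z)) = q * 2 ^ g then 1 else 0) = 0 := by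
        intro z
        rw [if_neg]
        obtain ⟨q'', -, h1⟩ := hs (S.b (Sum.inl z))
        rw [h1, hq']
        intro h2
        have h3 : (2 * q'') * 2 ^ g = (2 * q' + 1) * 2 ^ g := by rw [← h2, pow_succ]; ring
        have := Nat.eq_of_mul_eq_mul_right hg0 h3
        omega
      rw [Finset.sum_congr rfl (fun z _ => e2 z), Finset.sum_congr rfl (fun z _ => e3 z), e1]
      simp
  · rintro g' rfl e
    obtain ⟨x, rfl⟩ : ∃ x, e = Sum.inl x := by
      rcases e with x | e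
      · exact ⟨x, rfl⟩
      · exact e.elim
    obtain ⟨z₀, hz₀⟩ := hval x
    -- the relation in terms of the old block
    have key : ∀ x' : (Z × Fin B) ⊕ (Z × Fin B), ∀ z, base (emb (Sum.inl x') : Ch Z Empty B) =
        Sum.inl z → ((Sum.inl x' ≠ (Sum.inl x : _ ⊕ Empty) ∧
          (S'.comap emb emb_inj).Y (Sum.inl x') +
          sg ((S'.comap emb emb_inj).s ((S'.comap emb emb_inj).b (Sum.inl x')) + 2 ^ g') *
          ((S'.comap emb emb_inj).X (Sum.inl x) - (S'.comap emb emb_inj).X (Sum.inl x')) <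
          (S'.comap emb emb_inj).Y (Sum.inl x)) ↔
        ((emb (Sum.inl x') : Ch Z Empty B) ≠ emb (Sum.inl x) ∧
          ((base (emb (Sum.inl x) : Ch Z Empty B) = Sum.inl z ∧
            loc S (2 ^ (g' + 1)) hw' C (emb (Sum.inl x)) (emb (Sum.inl x'))) ∨
          (base (emb (Sum.inl x) : Ch Z Empty B) ≠ Sum.inl z ∧
            Rel S (2 ^ (g' + 1)) (base (emb (Sum.inl x) : Ch Z Empty B)) z)))) := by
      intro x' z hz
      by_cases hxx : x' = x
      · subst hxx; simp
      · have h1 : (Sum.inl x' : _ ⊕ Empty) ≠ Sum.inl x := fun h' => hxx (Sum.inl.inj h')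
        have h2 : (emb (Sum.inl x') : Ch Z Empty B) ≠ emb (Sum.inl x) :=
          fun h' => h1 (emb_inj h')
        have h3 : S'.s (S'.a (emb (Sum.inl x'))) = S'.s (S'.b (emb (Sum.inl x'))) + 2 ^ (g' + 1) := by
          rw [hs', ha', hb']
          rcases x' with ⟨z, j⟩ | ⟨z, j⟩
          · simp only [emb, na, nb, sl]
          · simp only [emb, na, nb, sl, hg z]
            rw [pow_succ 2 (g' + 1)]
            ring
        have h4 : 2 ^ (g' + 1) = 2 * 2 ^ g' := by rw [pow_succ]; ring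
        have h5 : 0 < 2 ^ g' := by positivity
        have h6 := (hsg (emb (Sum.inl x)) (emb (Sum.inl x')) (Ne.symm h2) z hz
          (S'.s (S'.b (emb (Sum.inl x'))) + 2 ^ g') (by omega) (by omega)).2
        simp only [Blk.comap]
        rw [← h6]
        simp only [h1, h2, ne_eq, not_false_eq_true, true_and]
    have e0 := hcc (Sum.inl z₀)
    unfold cnt
    rw [Fintype.sum_sum_type]
    have e1 : ∀ y : Z × Fin B, base (emb (Sum.inl (Sum.inl y)) : Ch Z Empty B) = Sum.inl y.1 :=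
      fun y => rfl
    have e2 : ∀ y : Z × Fin B, base (emb (Sum.inl (Sum.inr y)) : Ch Z Empty B) = Sum.inl y.1 :=
      fun y => rfl
    have f1 : ∀ y : Z × Fin B, _ := fun y => key (Sum.inl y) y.1 (e1 y)
    have f2 : ∀ y : Z × Fin B, _ := fun y => key (Sum.inr y) y.1 (e2 y)
    simp only [f1, f2]
    rw [sum_kids C _ z₀ hz₀ (fun y => emb (Sum.inl (Sum.inl y))),
      sum_kids C _ z₀ hz₀ (fun y => emb (Sum.inl (Sum.inr y))),
      sum_other _ _ e1, sum_other _ _ e2, hz₀, e0]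
    have e3 : ∑ i : Fin B, (if (emb (Sum.inl (Sum.inl (z₀, i))) : Ch Z Empty B) ≠ emb (Sum.inl x) ∧
        loc S (2 ^ (g' + 1)) hw' C (emb (Sum.inl x)) (emb (Sum.inl (Sum.inl (z₀, i))))
          then 1 else 0) +
      ∑ i : Fin B, (if (emb (Sum.inl (Sum.inr (z₀, i))) : Ch Z Empty B) ≠ emb (Sum.inl x) ∧
        loc S (2 ^ (g' + 1)) hw' C (emb (Sum.inl x)) (emb (Sum.inl (Sum.inr (z₀, i))))
          then 1 else 0) = B - 1 :=
      sum_local C hgap (B := B) (fun e => by simp only [hC]; omega) (emb (Sum.inl x)) z₀ hz₀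
    rw [← e3]
    ring

end Pool.Agent.K9h34.KE
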