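import Pool.Agent.KLev.Regular

/-!
# Bisection of the directions of a line arrangement: definitions

`Crs` describes a crossing of two lines with exactly `k` lines below it, `Blk` a family of such
crossings.  A bisection step replaces every line by a bundle of `m` parallel lines and puts a new
line into the crossing of the bundles at every active event.  The slopes are the values of a
strictly increasing table `sg`.
-/

namespace Pool.Agent.K9h34.KE

open KLev Finset Filter Topology

open scoped Classical in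
/-- the lines `a` and `b` cross at `(X, Y)`, no other line passes through this point and exactly
`k` lines pass strictly below it -/
structure Crs {ι : Type} [Fintype ι] (sg : ℕ → ℝ) (s : ι → ℕ) (t : ι → ℝ) (k : ℕ) (a b : ι)
    (X Y : ℝ) : Prop where
  hs : s b < s a
  ha : sg (s a) * X + t a = Y
  hb : sg (s b) * X + t b = Y
  hne : ∀ c, c ≠ a → c ≠ b → sg (s c) * X + t c ≠ Y
  hcard : ∑ c, (if sg (s c) * X + t c < Y then 1 else 0) = k

/-- an arrangement with a family of crossings of depth `k` -/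
structure Blk (sg : ℕ → ℝ) (ι R : Type) [Fintype ι] (k : ℕ) where
  s : ι → ℕ
  t : ι → ℝ
  a : R → ι
  b : R → ι
  X : R → ℝ
  Y : R → ℝ
  crs : ∀ e, Crs sg s t k (a e) (b e) (X e) (Y e)
  inj : Function.Injective X

/-- lexicographic sign for small positive parameters -/
lemma ev_lex (A B : ℝ) : ∀ᶠ ε in 𝓝[>] (0:ℝ), ((A + ε * B < 0 ↔ (A < 0 ∨ (A = 0 ∧ B < 0))) ∧
    (A + ε * B = 0 ↔ (A = 0 ∧ B = 0))) := by
  by_cases hA : A = 0
  · filter_upwards [self_mem_nhdsWithin] with ε hε
    have hε' : (0:ℝ) < ε := hε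
    subst hA
    constructor
    · simp only [zero_add, lt_irrefl, true_and, false_or]
      constructor
      · intro h
        by_contra h'
        push Not at h'
        have := mul_nonneg hε'.le h'
        linarith
      · intro h
        exact mul_neg_of_pos_of_neg hε' h
    · simp only [zero_add, true_and, mul_eq_zero]
      constructor
      · rintro (h | h)
        · exact absurd h hε'.ne'
        · exact h
      · intro h; exact Or.inr h
  · filter_upwards [ev_sign B hA] with ε hε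
    constructor
    · rw [hε.2]
      simp [hA]
    · simp [hA, hε.1]

lemma Crs.ne {ι : Type} [Fintype ι] {sg : ℕ → ℝ} {s : ι → ℕ} {t : ι → ℝ} {k : ℕ} {a b : ι}
    {X Y : ℝ} (h : Crs sg s t k a b X Y) : a ≠ b := by
  intro h'
  have := h.hs
  rw [h'] at this
  exact lt_irrefl _ this

/-- the index type of the new events: lower children, upper children and copies -/
abbrev Ch (Z U : Type) (B : ℕ) : Type := (Z × Fin B) ⊕ ((Z × Fin B) ⊕ (U × Fin B))

/-- the index type of the new lines -/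
abbrev Ln (ι Z : Type) (m : ℕ) : Type := (ι × Fin m) ⊕ Z

/-- vertical distance of the rows of a crossing of two bundles -/
noncomputable def wd (x y : ℝ) : ℝ := x * y / (x + y)

section

variable {sg : ℕ → ℝ} {ι Z U : Type} [Fintype ι] {k : ℕ}

/-- the event to which a new event belongs -/
def base {B : ℕ} : Ch Z U B → Z ⊕ U
  | Sum.inl (z, _) => Sum.inl z
  | Sum.inr (Sum.inl (z, _)) => Sum.inl z
  | Sum.inr (Sum.inr (u, _)) => Sum.inr u

variable (S : Blk sg ι (Z ⊕ U) k) (δ : ℕ) (h : ℕ → ℝ) (C : Z ⊕ U → ℕ)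

/-- vertical distance of the rows at an event -/
noncomputable def row (e : Z ⊕ U) : ℝ := wd (h (S.s (S.b e))) (h (S.s (S.a e)))

/-- local abscissa of a new event -/
noncomputable def xi {B : ℕ} : Ch Z U B → ℝ
  | Sum.inl (z, i) => ((i:ℕ) * h (S.s (S.b (Sum.inl z))) -
      (C (Sum.inl z) - 1 / 2) * row S h (Sum.inl z)) /
        (sg (S.s (S.b (Sum.inl z)) + δ) - sg (S.s (S.b (Sum.inl z))))
  | Sum.inr (Sum.inl (z, i)) => ((C (Sum.inl z) - 1 / 2) * row S h (Sum.inl z) -
      (i:ℕ) * h (S.s (S.a (Sum.inl z)))) /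
        (sg (S.s (S.a (Sum.inl z))) - sg (S.s (S.b (Sum.inl z)) + δ))
  | Sum.inr (Sum.inr (u, i)) =>
      ((i:ℕ) * h (S.s (S.b (Sum.inr u))) - (C (Sum.inr u) - (i:ℕ)) * h (S.s (S.a (Sum.inr u)))) /
        (sg (S.s (S.a (Sum.inr u))) - sg (S.s (S.b (Sum.inr u))))

/-- local ordinate of a new event -/
noncomputable def eta {B : ℕ} : Ch Z U B → ℝ
  | Sum.inl (z, i) => sg (S.s (S.b (Sum.inl z))) * xi S δ h C (Sum.inl (z, i) : Ch Z U B) +
      (i:ℕ) * h (S.s (S.b (Sum.inl z)))
  | Sum.inr (Sum.inl (z, i)) =>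
      sg (S.s (S.a (Sum.inl z))) * xi S δ h C (Sum.inr (Sum.inl (z, i)) : Ch Z U B) +
      (i:ℕ) * h (S.s (S.a (Sum.inl z)))
  | Sum.inr (Sum.inr (u, i)) =>
      sg (S.s (S.b (Sum.inr u))) * xi S δ h C (Sum.inr (Sum.inr (u, i)) : Ch Z U B) +
      (i:ℕ) * h (S.s (S.b (Sum.inr u)))

/-- slopes of the new lines -/
def sl {m : ℕ} : Ln ι Z m → ℕ
  | Sum.inl (c, _) => S.s c
  | Sum.inr z => S.s (S.b (Sum.inl z)) + δ

/-- intercepts of the new lines -/
noncomputable def ic {m : ℕ} (ε : ℝ) : Ln ι Z m → ℝ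
  | Sum.inl (c, u) => S.t c + ε * ((u:ℕ) * h (S.s c))
  | Sum.inr z => S.Y (Sum.inl z) - sg (S.s (S.b (Sum.inl z)) + δ) * S.X (Sum.inl z) +
      ε * ((C (Sum.inl z) - 1 / 2) * row S h (Sum.inl z))

/-- the rising line of a new event -/
def na {m B : ℕ} (hB : B ≤ m) (hC : ∀ e, C e < m) : Ch Z U B → Ln ι Z m
  | Sum.inl (z, _) => Sum.inr z
  | Sum.inr (Sum.inl (z, i)) => Sum.inl (S.a (Sum.inl z), Fin.castLE hB i)
  | Sum.inr (Sum.inr (u, i)) => Sum.inl (S.a (Sum.inr u), ⟨C (Sum.inr u) - i, by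
      have := hC (Sum.inr u); omega⟩)

/-- the falling line of a new event -/
def nb {m B : ℕ} (hB : B ≤ m) : Ch Z U B → Ln ι Z m
  | Sum.inl (z, i) => Sum.inl (S.b (Sum.inl z), Fin.castLE hB i)
  | Sum.inr (Sum.inl (z, _)) => Sum.inr z
  | Sum.inr (Sum.inr (u, i)) => Sum.inl (S.b (Sum.inr u), Fin.castLE hB i)

/-- leading term of the height of a line above a new event -/
noncomputable def LA {m B : ℕ} (v : Ch Z U B) : Ln ι Z m → ℝ
  | Sum.inl (c, _) => sg (S.s c) * S.X (base v) + S.t c - S.Y (base v)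
  | Sum.inr z => S.Y (Sum.inl z) + sg (S.s (S.b (Sum.inl z)) + δ) *
      (S.X (base v) - S.X (Sum.inl z)) - S.Y (base v)

/-- next term of the height of a line above a new event -/
noncomputable def LB {m B : ℕ} (v : Ch Z U B) : Ln ι Z m → ℝ
  | Sum.inl (c, u) => sg (S.s c) * xi S δ h C v + (u:ℕ) * h (S.s c) - eta S δ h C v
  | Sum.inr z => sg (S.s (S.b (Sum.inl z)) + δ) * xi S δ h C v +
      (C (Sum.inl z) - 1 / 2) * row S h (Sum.inl z) - eta S δ h C v

lemma height_eq {m B : ℕ} (ε : ℝ) (v : Ch Z U B) (c : Ln ι Z m) :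
    sg (sl S δ c) * (S.X (base v) + ε * xi S δ h C v) + ic S δ h C ε c -
      (S.Y (base v) + ε * eta S δ h C v) = LA S δ v c + ε * LB S δ h C v c := by
  rcases c with ⟨c, u⟩ | z
  · simp only [sl, ic, LA, LB]; ring
  · simp only [sl, ic, LA, LB]; ring

end

end Pool.Agent.K9h34.KE
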