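import Pool.Agent.K9h34.KE.Core

/-!
# Bisection of the directions of a line arrangement: counting the lines below a new event
-/

namespace Pool.Agent.K9h34.KE

open KLev Finset Filter Topology

lemma cnt_lt {m j : ℕ} (hj : j ≤ m) (P : Fin m → Prop) [DecidablePred P]
    (hP : ∀ u, P u ↔ (u:ℕ) < j) : ∑ u, (if P u then 1 else 0) = j := by
  have h1 : ∀ u, (if P u then 1 else 0) = (fun n : ℕ => if n < j then 1 else 0) (u:ℕ) := by
    intro u
    simp only [hP]
  rw [Finset.sum_congr rfl (fun u _ => h1 u), Fin.sum_univ_eq_sum_range (fun n : ℕ => if n < j then 1 else 0) m,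
    ← Finset.card_filter]
  have h2 : (Finset.range m).filter (fun n => n < j) = Finset.range j := by
    ext n
    simp only [Finset.mem_filter, Finset.mem_range]
    omega
  rw [h2, Finset.card_range]

lemma mul_neg_right {x y : ℝ} (hy : 0 < y) : x * y < 0 ↔ x < 0 := by
  constructor
  · intro h
    by_contra h'
    push Not at h'
    have := mul_nonneg h' hy.le
    linarith
  · intro h
    exact mul_neg_of_neg_of_pos h hy

lemma half_lt {u i C : ℕ} {y : ℝ} (hy : 0 < y) :
    (((u:ℝ) + i - C + 1 / 2) * y < 0 ↔ u < C - i) := by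
  rw [mul_neg_right hy]
  constructor
  · intro h
    have h1 : ((2 * (u + i) + 1 : ℕ) : ℝ) < ((2 * C : ℕ) : ℝ) := by push_cast; linarith
    have h2 : 2 * (u + i) + 1 < 2 * C := by exact_mod_cast h1
    omega
  · intro h
    have h2 : u + i + 1 ≤ C := by omega
    have h1 : ((u + i + 1 : ℕ) : ℝ) ≤ (C : ℝ) := by exact_mod_cast h2
    push_cast at h1
    linarith

lemma full_lt {u i C : ℕ} {y : ℝ} (hy : 0 < y) : (((u:ℝ) + i - C) * y < 0 ↔ u < C - i) := by
  rw [mul_neg_right hy]
  constructor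
  · intro h
    have h1 : ((u + i : ℕ) : ℝ) < (C : ℝ) := by push_cast; linarith
    have h2 : u + i < C := by exact_mod_cast h1
    omega
  · intro h
    have h2 : u + i + 1 ≤ C := by omega
    have h1 : ((u + i + 1 : ℕ) : ℝ) ≤ (C : ℝ) := by exact_mod_cast h2
    push_cast at h1
    linarith

lemma sub_lt' {u i : ℕ} {y : ℝ} (hy : 0 < y) : (((u:ℝ) - i) * y < 0 ↔ u < i) := by
  rw [mul_neg_right hy, sub_neg, Nat.cast_lt]

lemma half_ne {u i C : ℕ} : (u:ℝ) + i - C + 1 / 2 ≠ 0 := by
  intro h
  have h1 : ((2 * (u + i) + 1 : ℕ) : ℝ) = ((2 * C : ℕ) : ℝ) := by push_cast; linarith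
  have h2 : 2 * (u + i) + 1 = 2 * C := by exact_mod_cast h1
  omega

/-! ### the crossing of two bundles -/

section alg

variable {p r q x y c i u : ℝ}

/-- the new line crosses a line of the falling bundle -/
lemma alg_L (hx : 0 < x) (hy : 0 < y) (hpr : p < r) (hrel : x * (q - r) = y * (r - p)) :
    q * ((i * x - (c - 1 / 2) * wd x y) / (r - p)) + u * y -
      (p * ((i * x - (c - 1 / 2) * wd x y) / (r - p)) + i * x) = (u + i - c + 1 / 2) * y := by
  have h1 : r - p ≠ 0 := by linarith
  have hxy : x + y ≠ 0 := by positivity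
  have h2 : q = p + (r - p) * (x + y) / x := by
    field_simp
    linarith
  unfold wd
  have h3 : q * ((i * x - (c - 1 / 2) * (x * y / (x + y))) / (r - p)) + u * y -
      (p * ((i * x - (c - 1 / 2) * (x * y / (x + y))) / (r - p)) + i * x) =
      ((q - p) / (r - p)) * (i * x - (c - 1 / 2) * (x * y / (x + y))) + u * y - i * x := by
    ring
  have h4 : (q - p) / (r - p) = (x + y) / x := by
    rw [h2, div_eq_div_iff h1 hx.ne']
    field_simp
    ring
  rw [h3, h4]
  field_simp
  ring

/-- the new line crosses a line of the rising bundle -/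
lemma alg_H (hx : 0 < x) (hy : 0 < y) (hrq : r < q) (hrel : x * (q - r) = y * (r - p)) :
    p * (((c - 1 / 2) * wd x y - i * y) / (q - r)) + u * x -
      (q * (((c - 1 / 2) * wd x y - i * y) / (q - r)) + i * y) = (u + i - c + 1 / 2) * x := by
  have h1 : q - r ≠ 0 := by linarith
  have hxy : x + y ≠ 0 := by positivity
  have h3 : p * (((c - 1 / 2) * wd x y - i * y) / (q - r)) + u * x -
      (q * (((c - 1 / 2) * wd x y - i * y) / (q - r)) + i * y) =
      -((q - p) / (q - r)) * ((c - 1 / 2) * wd x y - i * y) + u * x - i * y := by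
    ring
  have h4 : (q - p) / (q - r) = (x + y) / y := by
    rw [div_eq_div_iff h1 hy.ne']
    linarith
  rw [h3, h4]
  unfold wd
  field_simp
  ring

lemma alg_zL (hpr : p < r) (w : ℝ) :
    r * ((i * x - (c - 1 / 2) * w) / (r - p)) + (c - 1 / 2) * w -
      (p * ((i * x - (c - 1 / 2) * w) / (r - p)) + i * x) = 0 := by
  have h1 : r - p ≠ 0 := by linarith
  have h3 : r * ((i * x - (c - 1 / 2) * w) / (r - p)) + (c - 1 / 2) * w -
      (p * ((i * x - (c - 1 / 2) * w) / (r - p)) + i * x) =
      ((r - p) / (r - p)) * (i * x - (c - 1 / 2) * w) + (c - 1 / 2) * w - i * x := by ring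
  rw [h3, div_self h1]; ring

lemma alg_zH (hrq : r < q) (w : ℝ) :
    r * (((c - 1 / 2) * w - i * y) / (q - r)) + (c - 1 / 2) * w -
      (q * (((c - 1 / 2) * w - i * y) / (q - r)) + i * y) = 0 := by
  have h1 : q - r ≠ 0 := by linarith
  have h3 : r * (((c - 1 / 2) * w - i * y) / (q - r)) + (c - 1 / 2) * w -
      (q * (((c - 1 / 2) * w - i * y) / (q - r)) + i * y) =
      -((q - r) / (q - r)) * ((c - 1 / 2) * w - i * y) + (c - 1 / 2) * w - i * y := by ring
  rw [h3, div_self h1]; ring

lemma alg_N (hpq : p < q) :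
    q * ((i * x - (c - i) * y) / (q - p)) + u * y - (p * ((i * x - (c - i) * y) / (q - p)) + i * x)
      = (u + i - c) * y := by
  have h1 : q - p ≠ 0 := by linarith
  have h3 : q * ((i * x - (c - i) * y) / (q - p)) + u * y -
      (p * ((i * x - (c - i) * y) / (q - p)) + i * x) =
      ((q - p) / (q - p)) * (i * x - (c - i) * y) + u * y - i * x := by ring
  rw [h3, div_self h1]; ring

end alg

section

variable {sg : ℕ → ℝ} {ι Z U : Type} [Fintype ι] {k : ℕ}
variable (S : Blk sg ι (Z ⊕ U) k) (δ : ℕ) (h : ℕ → ℝ) (C : Z ⊕ U → ℕ)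

/-- the slope indices of the active events differ by `2 δ`, and the widths `h` of the bundles are
such that the diagonals have the slope in between -/
structure Gap : Prop where
  mono : StrictMono sg
  pos : ∀ x, 0 < h x
  d1 : 1 ≤ δ
  gap : ∀ z : Z, S.s (S.a (Sum.inl z)) = S.s (S.b (Sum.inl z)) + 2 * δ
  rel : ∀ z : Z, h (S.s (S.b (Sum.inl z))) *
    (sg (S.s (S.a (Sum.inl z))) - sg (S.s (S.b (Sum.inl z)) + δ)) =
    h (S.s (S.a (Sum.inl z))) *
    (sg (S.s (S.b (Sum.inl z)) + δ) - sg (S.s (S.b (Sum.inl z))))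

variable {S δ h}

lemma Gap.lt1 (H : Gap S δ h) (z : Z) :
    sg (S.s (S.b (Sum.inl z))) < sg (S.s (S.b (Sum.inl z)) + δ) := by
  apply H.mono
  have := H.d1
  omega

lemma Gap.lt2 (H : Gap S δ h) (z : Z) :
    sg (S.s (S.b (Sum.inl z)) + δ) < sg (S.s (S.a (Sum.inl z))) := by
  apply H.mono
  have := H.d1
  have := H.gap z
  omega

/-- heights of the lines of the falling bundle -/
lemma LB_b (H : Gap S δ h) {m B : ℕ} (v : Ch Z U B) (u : Fin m) :
    LB S δ h C v (Sum.inl (S.b (base v), u)) =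
      match v with
      | Sum.inl (z, i) => ((u:ℝ) - (i:ℕ)) * h (S.s (S.b (Sum.inl z)))
      | Sum.inr (Sum.inl (z, i)) =>
        ((u:ℝ) + (i:ℕ) - C (Sum.inl z) + 1 / 2) * h (S.s (S.b (Sum.inl z)))
      | Sum.inr (Sum.inr (w, i)) => ((u:ℝ) - (i:ℕ)) * h (S.s (S.b (Sum.inr w))) := by
  rcases v with ⟨z, i⟩ | ⟨z, i⟩ | ⟨w, i⟩
  · simp only [LB, eta, base]; ring
  · simp only [LB, eta, base, xi, row]
    exact alg_H (H.pos _) (H.pos _) (H.lt2 z) (H.rel z)
  · simp only [LB, eta, base]; ring

/-- heights of the lines of the rising bundle -/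
lemma LB_a (H : Gap S δ h) {m B : ℕ} (v : Ch Z U B) (u : Fin m) :
    LB S δ h C v (Sum.inl (S.a (base v), u)) =
      match v with
      | Sum.inl (z, i) =>
        ((u:ℝ) + (i:ℕ) - C (Sum.inl z) + 1 / 2) * h (S.s (S.a (Sum.inl z)))
      | Sum.inr (Sum.inl (z, i)) => ((u:ℝ) - (i:ℕ)) * h (S.s (S.a (Sum.inl z)))
      | Sum.inr (Sum.inr (w, i)) =>
        ((u:ℝ) + (i:ℕ) - C (Sum.inr w)) * h (S.s (S.a (Sum.inr w))) := by
  rcases v with ⟨z, i⟩ | ⟨z, i⟩ | ⟨w, i⟩
  · simp only [LB, eta, base, xi, row]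
    exact alg_L (H.pos _) (H.pos _) (H.lt1 z) (H.rel z)
  · simp only [LB, eta, base]; ring
  · have h1 : sg (S.s (S.b (Sum.inr w))) < sg (S.s (S.a (Sum.inr w))) :=
      H.mono (S.crs (Sum.inr w)).hs
    simp only [LB, eta, base, xi]
    exact alg_N h1

/-- heights of the new line of an active event -/
lemma LB_z (H : Gap S δ h) {m B : ℕ} (v : Ch Z U B) (z : Z) (hz : base v = Sum.inl z) :
    LB S δ h C v (Sum.inr z : Ln ι Z m) = 0 := by
  rcases v with ⟨z', i⟩ | ⟨z', i⟩ | ⟨w, i⟩
  · simp only [base, Sum.inl.injEq] at hz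
    subst hz
    simp only [LB, eta, xi]
    exact alg_zL (H.lt1 z') _
  · simp only [base, Sum.inl.injEq] at hz
    subst hz
    simp only [LB, eta, xi]
    exact alg_zH (H.lt2 z') _
  · simp [base] at hz

lemma LA_a {m B : ℕ} (v : Ch Z U B) (u : Fin m) :
    LA S δ v (Sum.inl (S.a (base v), u)) = 0 := by
  simp only [LA]; linarith [(S.crs (base v)).ha]

lemma LA_b {m B : ℕ} (v : Ch Z U B) (u : Fin m) :
    LA S δ v (Sum.inl (S.b (base v), u)) = 0 := by
  simp only [LA]; linarith [(S.crs (base v)).hb]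

lemma LA_c {m B : ℕ} (v : Ch Z U B) (c : ι) (u : Fin m) (h1 : c ≠ S.a (base v))
    (h2 : c ≠ S.b (base v)) : LA S δ v (Sum.inl (c, u)) ≠ 0 := by
  simp only [LA]
  exact sub_ne_zero.mpr ((S.crs (base v)).hne c h1 h2)

lemma LA_z {m B : ℕ} (v : Ch Z U B) (z : Z) (hz : base v = Sum.inl z) :
    LA S δ v (Sum.inr z : Ln ι Z m) = 0 := by
  simp only [LA, hz]; ring

variable (S) in
/-- the active events behave uniformly with respect to the other events -/
def Wed : Prop := ∀ (e : Z ⊕ U) (z : Z), e ≠ Sum.inl z →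
  (∀ σ : ℕ, S.s (S.b (Sum.inl z)) < σ → σ < S.s (S.a (Sum.inl z)) →
    S.Y (Sum.inl z) + sg σ * (S.X e - S.X (Sum.inl z)) < S.Y e) ∨
  (∀ σ : ℕ, S.s (S.b (Sum.inl z)) < σ → σ < S.s (S.a (Sum.inl z)) →
    S.Y e < S.Y (Sum.inl z) + sg σ * (S.X e - S.X (Sum.inl z)))

lemma LA_z' (H : Gap S δ h) (hW : Wed S) {m B : ℕ} (v : Ch Z U B) (z : Z)
    (hz : base v ≠ Sum.inl z) : LA S δ v (Sum.inr z : Ln ι Z m) ≠ 0 := by
  simp only [LA]
  have h1 := H.gap z
  have h2 := H.d1
  rcases hW (base v) z hz with h3 | h3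
  · have h4 := h3 (S.s (S.b (Sum.inl z)) + δ) (by omega) (by omega)
    intro h5
    linarith
  · have h4 := h3 (S.s (S.b (Sum.inl z)) + δ) (by omega) (by omega)
    intro h5
    linarith

variable (S δ) in
open scoped Classical in
/-- number of new lines of other events below an event -/
noncomputable def cnt [Fintype Z] (e : Z ⊕ U) : ℕ :=
  ∑ z : Z, (if Sum.inl z ≠ e ∧ S.Y (Sum.inl z) + sg (S.s (S.b (Sum.inl z)) + δ) *
    (S.X e - S.X (Sum.inl z)) < S.Y e then 1 else 0)

open scoped Classical in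
/-- the number of lines below a new event -/
lemma count_new [Fintype Z] (H : Gap S δ h) (hW : Wed S) {m B : ℕ}
    (hC : ∀ e, C e < m) (hC' : ∀ e, B ≤ C e + 1) (v : Ch Z U B) :
    ∑ c : Ln ι Z m, (if (LA S δ v c < 0 ∨ (LA S δ v c = 0 ∧ LB S δ h C v c < 0)) then 1 else 0) =
      m * k + C (base v) + cnt S δ (base v) := by
  have hab := (S.crs (base v)).ne
  rw [Fintype.sum_sum_type, Fintype.sum_prod_type]
  congr 1
  · -- bundles
    set β : ℕ := ∑ u : Fin m, (if LB S δ h C v (Sum.inl (S.b (base v), u)) < 0 then 1 else 0)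
      with hβ
    set α : ℕ := ∑ u : Fin m, (if LB S δ h C v (Sum.inl (S.a (base v), u)) < 0 then 1 else 0)
      with hα
    have e1 : ∀ c : ι, ∑ u : Fin m, (if (LA S δ v (Sum.inl (c, u)) < 0 ∨
        (LA S δ v (Sum.inl (c, u)) = 0 ∧ LB S δ h C v (Sum.inl (c, u)) < 0)) then 1 else 0) =
        m * (if sg (S.s c) * S.X (base v) + S.t c < S.Y (base v) then 1 else 0) +
          ((if c = S.b (base v) then β else 0) + (if c = S.a (base v) then α else 0)) := by
      intro c
      by_cases hca : c = S.a (base v)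
      · subst hca
        have h0 : ¬ (sg (S.s (S.a (base v))) * S.X (base v) + S.t (S.a (base v)) <
            S.Y (base v)) := by
          rw [(S.crs (base v)).ha]; exact lt_irrefl _
        simp only [LA_a, lt_irrefl, true_and, false_or, h0, if_false, hab, if_true]
        rw [hα]; ring
      · by_cases hcb : c = S.b (base v)
        · subst hcb
          have h0 : ¬ (sg (S.s (S.b (base v))) * S.X (base v) + S.t (S.b (base v)) <
              S.Y (base v)) := by
            rw [(S.crs (base v)).hb]; exact lt_irrefl _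
          simp only [LA_b, lt_irrefl, true_and, false_or, h0, if_false, hab.symm, if_true]
          rw [hβ]; ring
        · have h1 : ∀ u : Fin m, LA S δ v (Sum.inl (c, u)) ≠ 0 := fun u => LA_c v c u hca hcb
          simp only [h1, false_and, or_false, hca, hcb, if_false, add_zero]
          have h2 : ∀ u : Fin m, (LA S δ v (Sum.inl (c, u)) < 0 ↔
              sg (S.s c) * S.X (base v) + S.t c < S.Y (base v)) := by
            intro u; simp only [LA]; exact sub_neg
          simp only [h2, Finset.sum_const, Finset.card_univ, Fintype.card_fin, smul_eq_mul]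
    rw [Finset.sum_congr rfl (fun c _ => e1 c), Finset.sum_add_distrib, Finset.sum_add_distrib,
      ← Finset.mul_sum, (S.crs (base v)).hcard, Finset.sum_ite_eq' Finset.univ (S.b (base v)),
      Finset.sum_ite_eq' Finset.univ (S.a (base v))]
    simp only [Finset.mem_univ, if_true]
    congr 1
    rw [hα, hβ]
    simp only [LB_b C H, LB_a C H]
    rcases v with ⟨z, i⟩ | ⟨z, i⟩ | ⟨w, i⟩
    · have hi := i.2
      have h1 := hC (Sum.inl z)
      have h2 := hC' (Sum.inl z)
      rw [cnt_lt (j := i) (by omega) _ (fun u => sub_lt' (H.pos _)),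
        cnt_lt (j := C (Sum.inl z) - i) (by omega) _ (fun u => half_lt (H.pos _))]
      simp only [base]; omega
    · have hi := i.2
      have h1 := hC (Sum.inl z)
      have h2 := hC' (Sum.inl z)
      rw [cnt_lt (j := i) (by omega) _ (fun u => sub_lt' (H.pos _)),
        cnt_lt (j := C (Sum.inl z) - i) (by omega) _ (fun u => half_lt (H.pos _))]
      simp only [base]; omega
    · have hi := i.2
      have h1 := hC (Sum.inr w)
      have h2 := hC' (Sum.inr w)
      rw [cnt_lt (j := i) (by omega) _ (fun u => sub_lt' (H.pos _)),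
        cnt_lt (j := C (Sum.inr w) - i) (by omega) _ (fun u => full_lt (H.pos _))]
      simp only [base]; omega
  · -- new lines
    unfold cnt
    apply Finset.sum_congr rfl
    intro z _
    by_cases hz : base v = Sum.inl z
    · simp only [LA_z v z hz, LB_z C H v z hz, lt_irrefl, and_false, or_false, if_false, hz,
        ne_eq, not_true_eq_false, false_and]
    · have h1 := LA_z' (m := m) H hW v z hz
      simp only [h1, false_and, or_false]
      have h2 : (LA S δ v (Sum.inr z : Ln ι Z m) < 0 ↔ S.Y (Sum.inl z) +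
          sg (S.s (S.b (Sum.inl z)) + δ) * (S.X (base v) - S.X (Sum.inl z)) <
            S.Y (base v)) := by
        simp only [LA]; exact sub_neg
      have h3 : Sum.inl z ≠ base v := Ne.symm hz
      simp only [h2, ne_eq, h3, not_false_eq_true, true_and]

end

end Pool.Agent.K9h34.KE
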