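import Pool.Agent.K9h34.KE.Vert

/-!
# Bisection of the directions: parameters
-/

namespace Pool.Agent.K9h34.KE

open KLev KLev.Levels Finset Filter Topology

/-- number of events per gap -/
def W (A : ℕ) : ℕ → ℕ
  | 0 => 1
  | j + 1 => (A * 4 ^ j) * W A j

lemma W_pos {A : ℕ} (hA : 1 ≤ A) (j : ℕ) : 1 ≤ W A j := by
  induction j with
  | zero => exact le_rfl
  | succ j ih =>
    exact Nat.mul_pos (Nat.mul_pos hA (by positivity)) ih

lemma W_le {A a : ℕ} (hA : A = 2 ^ a) (j : ℕ) : W A j ≤ 2 ^ (a * j + j * j) := by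
  induction j with
  | zero => exact le_rfl
  | succ j ih =>
    calc W A (j + 1) = (A * 4 ^ j) * W A j := rfl
      _ ≤ (2 ^ a * (2 ^ 2) ^ j) * 2 ^ (a * j + j * j) := by
          rw [hA] at *
          exact Nat.mul_le_mul_left _ ih
      _ = 2 ^ (a + 2 * j + (a * j + j * j)) := by
          rw [← pow_mul, ← pow_add, ← pow_add]
      _ ≤ 2 ^ (a * (j + 1) + (j + 1) * (j + 1)) := by
          apply Nat.pow_le_pow_right (by norm_num)
          nlinarith

/-- balanced blocks with good parameters -/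
theorem bal_exists {sg : ℕ → ℝ} (hsg : StrictMono sg) {A : ℕ} (hA : 1 ≤ A) (j : ℕ) :
    ∀ g, ∃ N k c, Bal sg g j N k c (W A j) ∧
    2 * c + 1 ≤ 2 ^ j * W A j ∧ W A j ≤ k + 1 ∧
    A * 2 ^ j * (k + 1) + W A j ≤ (A + 1) * 2 ^ j * W A j ∧
    A * 2 ^ j * N + 2 * W A j ≤ (2 * A + 2) * 2 ^ j * W A j := by
  induction j with
  | zero =>
    intro g
    exact ⟨2, 0, 0, Bal.start sg g, by simp [W], by simp [W], by simp [W], by simp [W]; omega⟩
  | succ j ih =>
    intro g
    obtain ⟨N, k, c, h, h1, h2, h3, h4⟩ := ih (g + 1)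
    set w := W A j with hw
    set B := A * 4 ^ j with hB
    have hB1 : 1 ≤ B := Nat.mul_pos hA (by positivity)
    have hw' : W A (j + 1) = B * w := rfl
    obtain ⟨B', hB'⟩ : ∃ B', B = B' + 1 := ⟨B - 1, by omega⟩
    have hst := h.step hsg B hB1
    have e1 : 2 * B * c + (B - 1) + 1 = 2 * B * c + B := by omega
    have e2 : B * k + (B + c - 1) + 1 = B * (k + 1) + c := by
      have : B + c - 1 + 1 = B + c := by omega
      rw [add_assoc, this]; ring
    refine ⟨_, _, _, hst, ?_, ?_, ?_, ?_⟩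
    · rw [hw']
      have e3 : 2 * (2 * B * c + (B - 1)) + 1 ≤ 2 * B * (2 * c + 1) := by
        have : 2 * (B - 1) + 1 ≤ 2 * B := by omega
        nlinarith
      refine e3.trans ?_
      calc 2 * B * (2 * c + 1) ≤ 2 * B * (2 ^ j * w) := Nat.mul_le_mul_left _ h1
        _ = 2 ^ (j + 1) * (B * w) := by rw [pow_succ]; ring
    · rw [hw', e2]
      have := Nat.mul_le_mul_left B h2
      omega
    · rw [hw', e2]
      -- A 2^(j+1) (B(k+1) + c) + B w ≤ (A+1) 2^(j+1) B w
      have h5 := Nat.mul_le_mul_left (2 * B) h3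
      have h6 : 2 * (A * 2 ^ j * c) ≤ B * w := by
        have h7 : 2 * c ≤ 2 ^ j * w := by omega
        calc 2 * (A * 2 ^ j * c) = A * 2 ^ j * (2 * c) := by ring
          _ ≤ A * 2 ^ j * (2 ^ j * w) := Nat.mul_le_mul_left _ h7
          _ = B * w := by
            rw [hB, show (4:ℕ) ^ j = 2 ^ j * 2 ^ j by rw [← mul_pow]; norm_num]; ring
      have e4 : A * 2 ^ (j + 1) * (B * (k + 1) + c) + B * w =
          2 * B * (A * 2 ^ j * (k + 1)) + 2 * (A * 2 ^ j * c) + B * w := by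
        rw [pow_succ]; ring
      have e5 : (A + 1) * 2 ^ (j + 1) * (B * w) = 2 * B * ((A + 1) * 2 ^ j * w) := by
        rw [pow_succ]; ring
      rw [e4, e5]
      have e6 : 2 * B * (A * 2 ^ j * (k + 1) + w) = 2 * B * (A * 2 ^ j * (k + 1)) + 2 * (B * w) := by
        ring
      rw [e6] at h5
      omega
    · rw [hw']
      have h5 := Nat.mul_le_mul_left (2 * B) h4
      have e4 : A * 2 ^ (j + 1) * (B * N + 2 ^ j * w) + 2 * (B * w) =
          2 * B * (A * 2 ^ j * N) + 4 * (B * w) := by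
        rw [pow_succ, hB, show (4:ℕ) ^ j = 2 ^ j * 2 ^ j by rw [← mul_pow]; norm_num]; ring
      have e5 : (2 * A + 2) * 2 ^ (j + 1) * (B * w) = 2 * B * ((2 * A + 2) * 2 ^ j * w) := by
        rw [pow_succ]; ring
      rw [e4, e5]
      have e6 : 2 * B * (A * 2 ^ j * N + 2 * w) = 2 * B * (A * 2 ^ j * N) + 4 * (B * w) := by
        ring
      rw [e6] at h5
      omega

/-- a block with `2 ^ i + r + 1` directions and good parameters -/
theorem par_exists {sg : ℕ → ℝ} (hsg : StrictMono sg) {A : ℕ} (hA : 1 ≤ A) (i r : ℕ)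
    (hr : r ≤ 2 ^ i) :
    ∃ N k F Ω, Par sg i r N k F ∧ F = (2 ^ i + r) * Ω ∧
      Ω = A * 2 ^ i * W A i * W A i ∧ k + 1 ≤ N ∧
      A ^ 2 * (k + 1) ≤ (A ^ 2 + 4 * A + 2) * Ω ∧
      A ^ 2 * (N - (k + 1)) ≤ (A ^ 2 + 4 * A + 2) * Ω := by
  obtain ⟨N, k, c, h, -, h2, h3, h4⟩ := bal_exists hsg hA i 1
  set w := W A i with hw
  have hw1 : 1 ≤ w := W_pos hA i
  have h20 : 1 ≤ 2 ^ i := Nat.one_le_two_pow
  set B := A * 2 ^ i * w with hB
  have hB1 : 1 ≤ B := Nat.mul_pos (Nat.mul_pos hA h20) hw1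
  have hp := h.par hsg r hr B hB1
  -- consequences of the bounds
  have h5 : A * (k + 1) ≤ (A + 1) * w := by
    have : 2 ^ i * (A * (k + 1)) ≤ 2 ^ i * ((A + 1) * w) := by
      calc 2 ^ i * (A * (k + 1)) = A * 2 ^ i * (k + 1) := by ring
        _ ≤ (A + 1) * 2 ^ i * w := by omega
        _ = _ := by ring
    exact Nat.le_of_mul_le_mul_left this h20
  have h6 : A * N ≤ (2 * A + 2) * w := by
    have : 2 ^ i * (A * N) ≤ 2 ^ i * ((2 * A + 2) * w) := by
      calc 2 ^ i * (A * N) = A * 2 ^ i * N := by ring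
        _ ≤ (2 * A + 2) * 2 ^ i * w := by omega
        _ = _ := by ring
    exact Nat.le_of_mul_le_mul_left this h20
  -- the number of lines exceeds the depth
  have hkN : k + 2 ≤ N := by
    obtain ⟨ι, Z, _, _, S, hN, hs, hg, hW', hw', -⟩ := h
    have hcZ := card_active S hs hg hw'
    have hZ : 0 < Fintype.card Z := by rw [hcZ]; exact Nat.mul_pos h20 hw1
    obtain ⟨z⟩ := Fintype.card_pos_iff.mp hZ
    have hc := S.crs (Sum.inl z)
    classical
    have h7 := hc.hcard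
    rw [← Finset.card_filter] at h7
    have h8 : insert (S.a (Sum.inl z)) (insert (S.b (Sum.inl z))
        (Finset.univ.filter (fun c => sg (S.s c) * S.X (Sum.inl z) + S.t c < S.Y (Sum.inl z)))) ⊆
        (Finset.univ : Finset ι) := Finset.subset_univ _
    have h9 := Finset.card_le_card h8
    rw [Finset.card_insert_of_notMem, Finset.card_insert_of_notMem, Finset.card_univ, hN] at h9
    · have h10 : (Finset.univ.filter (fun c => sg (S.s c) * S.X (Sum.inl z) + S.t c <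
          S.Y (Sum.inl z))).card = k := by convert h7
      omega
    · simp [hc.hb]
    · simp [hc.ha, hc.ne]
  set m := r * w + B with hm
  have hAm : A * m ≤ (A + 1) * B := by
    have h7 : A * (r * w) ≤ B := by
      calc A * (r * w) ≤ A * (2 ^ i * w) := Nat.mul_le_mul_left _ (Nat.mul_le_mul_right _ hr)
        _ = B := by rw [hB]; ring
    calc A * m = A * (r * w) + A * B := by rw [hm]; ring
      _ ≤ B + A * B := by omega
      _ = _ := by ring
  have hm1 : 1 ≤ m := by omega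
  have e1 : m * k + (m - 1) + 1 = m * (k + 1) := by
    have : m - 1 + 1 = m := by omega
    rw [add_assoc, this]; ring
  obtain ⟨d, hd⟩ : ∃ d, N = k + 1 + d := ⟨N - (k + 1), by omega⟩
  have h7 : A * d ≤ (A + 2) * w := by
    have : A * N = A * (k + 1) + A * d := by rw [hd]; ring
    have h8 := Nat.mul_le_mul_left A h2
    have h9 : (2 * A + 2) * w = A * w + (A + 2) * w := by ring
    omega
  refine ⟨_, _, _, B * w, hp, rfl, by rw [hB], ?_, ?_, ?_⟩
  · rw [e1, hd]
    nlinarith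
  · rw [e1]
    calc A ^ 2 * (m * (k + 1)) = (A * m) * (A * (k + 1)) := by ring
      _ ≤ ((A + 1) * B) * ((A + 1) * w) := Nat.mul_le_mul hAm h5
      _ = (A ^ 2 + 2 * A + 1) * (B * w) := by ring
      _ ≤ _ := Nat.mul_le_mul_right _ (by omega)
  · have e2 : m * N + r * w - (m * k + (m - 1) + 1) = m * d + r * w := by
      rw [e1, hd]
      have : m * (k + 1 + d) + r * w = m * (k + 1) + (m * d + r * w) := by ring
      rw [this, Nat.add_sub_cancel_left]
    rw [e2]
    have h8 : A ^ 2 * (r * w) ≤ A * (B * w) := by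
      calc A ^ 2 * (r * w) ≤ A ^ 2 * (2 ^ i * w) :=
            Nat.mul_le_mul_left _ (Nat.mul_le_mul_right _ hr)
        _ = A * B := by rw [hB]; ring
        _ ≤ A * (B * w) := Nat.mul_le_mul_left _ (Nat.le_mul_of_pos_right _ hw1)
    calc A ^ 2 * (m * d + r * w) = (A * m) * (A * d) + A ^ 2 * (r * w) := by ring
      _ ≤ ((A + 1) * B) * ((A + 2) * w) + A * (B * w) :=
          Nat.add_le_add (Nat.mul_le_mul hAm h7) h8
      _ = _ := by ring

/-- a set of lines for given parameters -/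
theorem lines_exists {sg : ℕ → ℝ} (hsg : StrictMono sg) {i r N₀ k₀ F L n k : ℕ}
    (h : Par sg i r N₀ k₀ F) (hk₀ : k₀ + 1 ≤ N₀)
    (hL1 : k₀ + 1 ≤ L) (hL2 : N₀ - (k₀ + 1) ≤ L) {α : ℕ} (hα : 2 ≤ α) (h1 : α * L ≤ k + 1)
    (h2 : α * L ≤ n - k - 1) (hkn : k < n) :
    ∃ Γ : Finset (ℝ × ℝ), Γ.card = n ∧ (∀ l ∈ Γ, ∃ x, Use i r x ∧ l.1 = sg x) ∧
      NoThree Γ ∧ F * (2 * α - 1) ≤ complexity Γ k := by
  classical
  obtain ⟨a, rfl⟩ : ∃ a, α = a + 2 := ⟨α - 2, by omega⟩
  obtain ⟨d, hd⟩ : ∃ d, N₀ = k₀ + 1 + d := ⟨N₀ - (k₀ + 1), by omega⟩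
  have hL2' : d ≤ L := by omega
  have g1 : (a + 2) * (k₀ + 1) ≤ k + 1 := (Nat.mul_le_mul_left _ hL1).trans h1
  have g2 : (a + 2) * d ≤ n - k - 1 := (Nat.mul_le_mul_left _ hL2').trans h2
  have h3 := (h.two hsg a).pad (n - k - 1 - (a + 2) * d) (k + 1 - (a + 2) * (k₀ + 1))
  obtain ⟨Γ, e1, e2, e3, e4⟩ := h3.lines hsg
  refine ⟨Γ, ?_, e2, e3, ?_⟩
  · rw [e1, hd]
    have e5 : (a + 2) * (k₀ + 1 + d) = (a + 2) * (k₀ + 1) + (a + 2) * d := by ring
    rw [e5]
    omega
  · have e6 : (a + 2) * k₀ + a + (k + 1 - (a + 2) * (k₀ + 1)) + 1 = k := by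
      have e5 : (a + 2) * (k₀ + 1) = (a + 2) * k₀ + (a + 2) := by ring
      rw [e5] at g1 ⊢
      omega
    rw [e6] at e4
    refine le_trans (le_of_eq ?_) e4
    have e7 : 2 * (a + 2) - 1 = (a + 2) + (a + 1) := by omega
    rw [e7]; ring

/-- a strictly increasing table which takes its values at the used indices in a given set -/
lemma table (T : Finset ℝ) (i r : ℕ) (hr : r ≤ 2 ^ i) (hT : T.card = 2 ^ i + r + 1) :
    ∃ sg : ℕ → ℝ, StrictMono sg ∧ ∀ x, Use i r x → sg x ∈ T := by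
  classical
  set D := T.card with hD
  set f : Fin D ↪o ℝ := T.orderEmbOfFin rfl with hf
  have hD1 : D - 1 < D := by omega
  set e : ℕ → ℝ := fun x => if hx : x < D then f ⟨x, hx⟩ else f ⟨D - 1, hD1⟩ + (x - (D - 1 : ℕ))
    with he
  have heT : ∀ x, x < D → e x ∈ T := by
    intro x hx
    simp only [he, dif_pos hx, hf]
    exact Finset.orderEmbOfFin_mem T rfl _
  have hemono : StrictMono e := by
    apply strictMono_nat_of_lt_succ
    intro x
    simp only [he]
    by_cases h1 : x + 1 < D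
    · rw [dif_pos h1, dif_pos (by omega : x < D)]
      apply f.strictMono
      simp
    · rw [dif_neg h1]
      by_cases h2 : x < D
      · have h3 : x = D - 1 := by omega
        rw [dif_pos h2]
        have h4 : (⟨x, h2⟩ : Fin D) = ⟨D - 1, hD1⟩ := Fin.ext h3
        have h5 : ((D - 1 : ℕ) : ℝ) = x := by rw [← h3]
        rw [h4, h5]
        push_cast
        linarith
      · rw [dif_neg h2]
        push_cast
        linarith
  refine ⟨fun x => if x ≤ 2 * r then e x else (e (x / 2 + r) + e ((x + 1) / 2 + r)) / 2, ?_, ?_⟩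
  · apply strictMono_nat_of_lt_succ
    intro x
    by_cases h1 : x + 1 ≤ 2 * r
    · simp only [h1, (by omega : x ≤ 2 * r), if_true]
      exact hemono (Nat.lt_succ_self x)
    · simp only [h1, if_false]
      by_cases h2 : x ≤ 2 * r
      · have h3 : x = 2 * r := by omega
        simp only [h2, if_true]
        have e1 : (x + 1) / 2 + r = x := by omega
        have e2 : (x + 1 + 1) / 2 + r = x + 1 := by omega
        rw [e1, e2]
        have := hemono (Nat.lt_succ_self x)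
        simp only [Nat.succ_eq_add_one] at this
        linarith
      · simp only [h2, if_false]
        have e1 : (x + 1 + 1) / 2 + r = x / 2 + r + 1 := by omega
        rw [e1]
        have := hemono (Nat.lt_succ_self (x / 2 + r))
        simp only [Nat.succ_eq_add_one] at this
        linarith
  · rintro x (⟨q, hq, rfl⟩ | ⟨q, hq, rfl⟩)
    · by_cases h1 : q * 2 ≤ 2 * r
      · simp only [h1, if_true]
        exact heT _ (by omega)
      · simp only [h1, if_false]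
        have e1 : q * 2 / 2 + r = q + r := by omega
        have e2 : (q * 2 + 1) / 2 + r = q + r := by omega
        rw [e1, e2, add_self_div_two]
        exact heT _ (by omega)
    · have h1 : q * 2 + 1 ≤ 2 * r := by omega
      simp only [h1, if_true]
      exact heT _ (by omega)

/-- **Lower bound.** -/
theorem lower (ε : ℝ) (hε : 0 < ε) : ∃ c > 0, ∀ (T : Finset ℝ) (n k : ℕ), 2 ≤ T.card →
    (T.card : ℝ) ≤ Real.exp (c * √(Real.log (min k (n - k) : ℕ))) →
    5 ≤ ε * (min k (n - k) : ℕ) ∧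
    ∃ Γ : Finset (ℝ × ℝ), Γ.card = n ∧ (∀ l ∈ Γ, l.1 ∈ T) ∧
      NoThree Γ ∧ (1 - ε) * (2 * ((T.card : ℝ) - 1) * (min k (n - k) : ℕ)) ≤ complexity Γ k := by
  classical
  -- parameters
  obtain ⟨a₀, ha₀⟩ : ∃ a₀ : ℕ, 12 / ε ≤ 2 ^ a₀ := by
    obtain ⟨m, hm⟩ := pow_unbounded_of_one_lt (12 / ε) (by norm_num : (1:ℝ) < 2)
    exact ⟨m, hm.le⟩
  obtain ⟨c₁, hc₁⟩ : ∃ c₁ : ℕ, 20 + 6 / ε ≤ 2 ^ c₁ := by
    obtain ⟨m, hm⟩ := pow_unbounded_of_one_lt (20 + 6 / ε) (by norm_num : (1:ℝ) < 2)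
    exact ⟨m, hm.le⟩
  set A : ℕ := 2 ^ a₀ with hA
  have hA1 : 1 ≤ A := Nat.one_le_two_pow
  set C : ℕ := c₁ + (3 * a₀ + 3) with hC
  have hC1 : 1 ≤ C := by omega
  have hC0 : (0:ℝ) < C := by exact_mod_cast hC1
  have hl2 : 0 < Real.log 2 := Real.log_pos (by norm_num)
  refine ⟨√(Real.log 2 / C), Real.sqrt_pos.mpr (by positivity), ?_⟩
  intro T n k hD hDe
  set D := T.card with hDT
  set M : ℕ := min k (n - k) with hM
  set i := Nat.log 2 (D - 1) with hi
  have hi1 : 2 ^ i ≤ D - 1 := Nat.pow_log_le_self 2 (by omega)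
  have hi2 : D - 1 < 2 ^ (i + 1) := Nat.lt_pow_succ_log_self (by norm_num) _
  obtain ⟨r, hr⟩ : ∃ r, D = 2 ^ i + r + 1 := ⟨D - 1 - 2 ^ i, by omega⟩
  have hr' : r ≤ 2 ^ i := by rw [pow_succ] at hi2; omega
  set j := max i 1 with hj
  have hj1 : 1 ≤ j := le_max_right _ _
  have hij : i ≤ j := le_max_left _ _
  have hDj : 2 ^ j ≤ D := by
    rcases le_total i 1 with h | h
    · rw [hj, max_eq_right h]; omega
    · rw [hj, max_eq_left h]; omega
  -- lower bound for M
  have hMlog : (C:ℝ) * (j:ℝ) ^ 2 * Real.log 2 ≤ Real.log M := by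
    have h1 : (j:ℝ) * Real.log 2 ≤ Real.log D := by
      rw [← Real.log_pow]
      apply Real.log_le_log (by positivity)
      exact_mod_cast hDj
    have hD0 : (0:ℝ) < D := by
      have : 0 < D := by omega
      exact_mod_cast this
    have h2 : Real.log D ≤ √(Real.log 2 / C) * √(Real.log M) := by
      rw [Real.log_le_iff_le_exp hD0]
      exact hDe
    have h3 : 0 < (j:ℝ) * Real.log 2 := by
      have : (0:ℝ) < j := by exact_mod_cast hj1
      positivity
    have hML : 0 ≤ Real.log M := by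
      rcases Nat.eq_zero_or_pos M with h | h
      · rw [h]; simp
      · exact Real.log_nonneg (by exact_mod_cast h)
    have h4 : ((j:ℝ) * Real.log 2) ^ 2 ≤ (√(Real.log 2 / C) * √(Real.log M)) ^ 2 := by
      apply pow_le_pow_left₀ h3.le (h1.trans h2)
    rw [mul_pow (√(Real.log 2 / C)), Real.sq_sqrt (by positivity), Real.sq_sqrt hML] at h4
    have h5 : Real.log 2 / C * Real.log M = Real.log 2 * (Real.log M / C) := by ring
    rw [h5, mul_pow] at h4
    have h6 : Real.log 2 * ((j:ℝ) ^ 2 * Real.log 2) ≤ Real.log 2 * (Real.log M / C) := by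
      refine le_trans (le_of_eq ?_) h4
      ring
    have h7 := le_of_mul_le_mul_left h6 hl2
    rw [le_div_iff₀ hC0] at h7
    linarith
  have hMpos : 0 < M := by
    rcases Nat.eq_zero_or_pos M with h | h
    · exfalso
      rw [h] at hMlog
      simp only [Nat.cast_zero, Real.log_zero] at hMlog
      have : (0:ℝ) < j := by exact_mod_cast hj1
      have : 0 < (C:ℝ) * (j:ℝ) ^ 2 * Real.log 2 := by positivity
      linarith
    · exact h
  have hM0 : (0:ℝ) < M := by exact_mod_cast hMpos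
  have hM2 : 2 ^ (C * j ^ 2) ≤ M := by
    have h1 : Real.log ((2:ℝ) ^ (C * j ^ 2)) ≤ Real.log M := by
      rw [Real.log_pow]
      push_cast
      exact hMlog
    have h2 := (Real.log_le_log_iff (by positivity) hM0).mp h1
    exact_mod_cast h2
  -- the block
  obtain ⟨sg, hsg, hsgT⟩ := table T i r hr' hr
  obtain ⟨N₀, k₀, F, Ω, hP, hF, hΩ, hk₀, hb1, hb2⟩ := par_exists hsg hA1 i r hr'
  have hW1 := W_pos hA1 i
  have hΩ1 : 1 ≤ Ω := by
    rw [hΩ]
    exact Nat.mul_pos (Nat.mul_pos (Nat.mul_pos hA1 Nat.one_le_two_pow) hW1) hW1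
  have hΩ2 : Ω ≤ 2 ^ ((3 * a₀ + 3) * j ^ 2) := by
    have h1 := W_le hA i
    calc Ω = A * 2 ^ i * W A i * W A i := hΩ
      _ ≤ 2 ^ a₀ * 2 ^ i * 2 ^ (a₀ * i + i * i) * 2 ^ (a₀ * i + i * i) :=
          Nat.mul_le_mul (Nat.mul_le_mul_left _ h1) h1
      _ = 2 ^ (a₀ + i + (a₀ * i + i * i) + (a₀ * i + i * i)) := by
          rw [← pow_add, ← pow_add, ← pow_add]
      _ ≤ 2 ^ ((3 * a₀ + 3) * j ^ 2) := by
          apply Nat.pow_le_pow_right (by norm_num)
          have b1 : i * i ≤ j * j := Nat.mul_le_mul hij hij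
          have b2 : i ≤ j * j := hij.trans (Nat.le_mul_of_pos_right _ hj1)
          have b3 : 1 ≤ j * j := Nat.mul_pos hj1 hj1
          have b4 : a₀ * i ≤ a₀ * (j * j) := Nat.mul_le_mul_left _ b2
          have b5 : a₀ ≤ a₀ * (j * j) := Nat.le_mul_of_pos_right _ b3
          have e : (3 * a₀ + 3) * j ^ 2 = 3 * (a₀ * (j * j)) + 3 * (j * j) := by ring
          rw [e]
          omega
  have hMΩ : 2 ^ c₁ * Ω ≤ M := by
    calc 2 ^ c₁ * Ω ≤ 2 ^ c₁ * 2 ^ ((3 * a₀ + 3) * j ^ 2) := Nat.mul_le_mul_left _ hΩ2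
      _ = 2 ^ (c₁ + (3 * a₀ + 3) * j ^ 2) := by rw [← pow_add]
      _ ≤ 2 ^ (C * j ^ 2) := by
          apply Nat.pow_le_pow_right (by norm_num)
          have b3 : 1 ≤ j ^ 2 := Nat.one_le_pow _ _ hj1
          have b4 : c₁ ≤ c₁ * j ^ 2 := Nat.le_mul_of_pos_right _ b3
          have e : C * j ^ 2 = c₁ * j ^ 2 + (3 * a₀ + 3) * j ^ 2 := by rw [hC]; ring
          rw [e]
          omega
      _ ≤ M := hM2
  have hΩr : (1:ℝ) ≤ Ω := by exact_mod_cast hΩ1
  have hMΩr : (20 + 6 / ε) * Ω ≤ M := by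
    have h1 : ((2 ^ c₁ * Ω : ℕ) : ℝ) ≤ M := by exact_mod_cast hMΩ
    push_cast at h1
    refine le_trans ?_ h1
    exact mul_le_mul_of_nonneg_right hc₁ (by linarith)
  have hM20 : 20 * (Ω:ℝ) ≤ M := by
    have : 0 ≤ 6 / ε * Ω := by positivity
    nlinarith
  have hM5 : 6 * (Ω:ℝ) ≤ ε * M := by
    have h1 : 6 / ε * (Ω:ℝ) ≤ M := by nlinarith
    have h2 := mul_le_mul_of_nonneg_left h1 hε.le
    have e : ε * (6 / ε * (Ω:ℝ)) = 6 * Ω := by field_simp
    linarith
  refine ⟨by linarith, ?_⟩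
  -- the number of bundles
  set L : ℕ := max (k₀ + 1) (N₀ - (k₀ + 1)) with hL
  have hL1 : 1 ≤ L := le_trans (by omega) (le_max_left _ _)
  have hAL : A ^ 2 * L ≤ (A ^ 2 + 4 * A + 2) * Ω := by
    rcases le_total (k₀ + 1) (N₀ - (k₀ + 1)) with h | h
    · rw [hL, max_eq_right h]; exact hb2
    · rw [hL, max_eq_left h]; exact hb1
  have hAr : (1:ℝ) ≤ A := by exact_mod_cast hA1
  have hLr : (L:ℝ) ≤ (1 + 6 / A) * Ω := by
    have h1 : ((A ^ 2 * L : ℕ) : ℝ) ≤ ((A ^ 2 + 4 * A + 2) * Ω : ℕ) := by exact_mod_cast hAL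
    push_cast at h1
    have hA0 : (0:ℝ) < A := by linarith
    have h2 : ((A:ℝ) ^ 2 + 4 * A + 2) ≤ (A:ℝ) ^ 2 * (1 + 6 / A) := by
      have : (A:ℝ) ^ 2 * (1 + 6 / A) = A ^ 2 + 6 * A := by field_simp
      rw [this]; nlinarith
    have h3 : (A:ℝ) ^ 2 * L ≤ A ^ 2 * ((1 + 6 / A) * Ω) := by
      refine h1.trans ?_
      have := mul_le_mul_of_nonneg_right h2 (by linarith : (0:ℝ) ≤ Ω)
      linarith
    exact le_of_mul_le_mul_left h3 (by positivity)
  have hL7 : (L:ℝ) ≤ 7 * Ω := by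
    refine hLr.trans ?_
    apply mul_le_mul_of_nonneg_right _ (by linarith)
    have : 6 / (A:ℝ) ≤ 6 := by
      rw [div_le_iff₀ (by linarith)]; nlinarith
    linarith
  set μ : ℕ := min (k + 1) (n - k - 1) with hμ
  have hMμ : M ≤ μ + 1 := by omega
  have hMμr : (M:ℝ) ≤ μ + 1 := by exact_mod_cast hMμ
  set α : ℕ := μ / L with hα
  have hα2 : 2 ≤ α := by
    rw [hα, Nat.le_div_iff_mul_le hL1]
    have h1 : ((2 * L : ℕ) : ℝ) ≤ μ := by
      push_cast
      linarith
    exact_mod_cast h1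
  have hαL : α * L ≤ μ := Nat.div_mul_le_self μ L
  have hαL' : μ < (α + 1) * L := by
    have := Nat.lt_div_mul_add (a := μ) hL1
    rw [← hα] at this
    calc μ < α * L + L := this
      _ = (α + 1) * L := by ring
  obtain ⟨Γ, e1, e2, e3, e4⟩ := lines_exists (L := L) (n := n) (k := k) hsg hP hk₀
    (le_max_left _ _) (le_max_right _ _) hα2 (hαL.trans (min_le_left _ _))
    (hαL.trans (min_le_right _ _)) (by omega)
  refine ⟨Γ, e1, fun l hl => ?_, e3, ?_⟩
  · obtain ⟨x, hx, hlx⟩ := e2 l hl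
    rw [hlx]
    exact hsgT x hx
  have e5 : ((F * (2 * α - 1) : ℕ) : ℝ) ≤ complexity Γ k := by exact_mod_cast e4
  refine le_trans ?_ e5
  have e6 : ((2 * α - 1 : ℕ) : ℝ) = 2 * α - 1 := by
    rw [Nat.cast_sub (by omega)]; push_cast; ring
  have e7 : (F:ℝ) = ((D:ℝ) - 1) * Ω := by
    rw [hF, hr]; push_cast; ring
  rw [Nat.cast_mul, e6, e7]
  have hD1 : (0:ℝ) ≤ (D:ℝ) - 1 := by
    have : (2:ℝ) ≤ D := by exact_mod_cast hD
    linarith
  have key : (1 - ε) * (2 * (M:ℝ)) ≤ Ω * (2 * α - 1) := by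
    have h1 : (μ:ℝ) ≤ (α + 1) * L := by
      have : (μ:ℝ) < (((α + 1) * L : ℕ) : ℝ) := by exact_mod_cast hαL'
      push_cast at this
      exact this.le
    have hα0 : (0:ℝ) ≤ α := by positivity
    have h2 : (μ:ℝ) ≤ (α + 1) * ((1 + 6 / A) * Ω) :=
      h1.trans (mul_le_mul_of_nonneg_left hLr (by linarith))
    have hA6 : 6 / (A:ℝ) ≤ ε / 2 := by
      have h3 : (12 / ε : ℝ) ≤ A := by
        rw [hA]; push_cast; exact ha₀
      rw [div_le_iff₀ (by linarith)]
      rw [div_le_iff₀ hε] at h3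
      linarith
    have hA0 : 0 ≤ 6 / (A:ℝ) := by positivity
    have hμ0 : (0:ℝ) ≤ μ := by positivity
    -- (1 - 6/A) μ ≤ (α + 1) Ω
    have h3 : (1 - 6 / A) * (μ:ℝ) ≤ (α + 1) * Ω := by
      have h4 : (0:ℝ) ≤ (α + 1) * Ω := by positivity
      by_cases h5 : (1 - 6 / (A:ℝ)) ≤ 0
      · have := mul_nonneg (neg_nonneg.mpr h5) hμ0
        linarith
      · push Not at h5
        have h6 := mul_le_mul_of_nonneg_left h2 h5.le
        have h7 : (1 - 6 / (A:ℝ)) * ((α + 1) * ((1 + 6 / A) * Ω)) =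
            (1 - (6 / A) ^ 2) * ((α + 1) * Ω) := by ring
        rw [h7] at h6
        have h8 : (1 - (6 / (A:ℝ)) ^ 2) * ((α + 1) * Ω) ≤ 1 * ((α + 1) * Ω) := by
          apply mul_le_mul_of_nonneg_right _ h4
          nlinarith [sq_nonneg (6 / (A:ℝ))]
        linarith
    have h9 : 6 / (A:ℝ) * μ ≤ ε / 2 * (M + 1) := by
      have hμM : (μ:ℝ) ≤ M + 1 := by
        have : μ ≤ M + 1 := by omega
        exact_mod_cast this
      exact mul_le_mul hA6 hμM hμ0 (by linarith)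
    have h10 : 20 * ε ≤ ε * M := by
      have : (20:ℝ) ≤ M := by linarith
      nlinarith
    linarith
  have := mul_le_mul_of_nonneg_left key hD1
  linarith

end Pool.Agent.K9h34.KE
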