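import Pool.Agent.K9h34.KE.Bal2

/-!
# Bisection of the directions: a partial step and two neighbouring depths
-/

namespace Pool.Agent.K9h34.KE

open KLev Finset Filter Topology

/-- the slope indices in use -/
def Use (i r x : ℕ) : Prop := (∃ q ≤ 2 ^ i, x = q * 2) ∨ (∃ q < r, x = q * 2 + 1)

/-- a block with the slope indices in use -/
def Par (sg : ℕ → ℝ) (i r N k F : ℕ) : Prop :=
  ∃ (ι R : Type) (_ : Fintype ι) (_ : Fintype R) (S : Blk sg ι R k),
    Fintype.card ι = N ∧ Fintype.card R = F ∧ ∀ l, Use i r (S.s l)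

/-- bisection of the first `r` gaps only -/
theorem Bal.par {sg : ℕ → ℝ} (hsg : StrictMono sg) {i N k c w : ℕ} (h : Bal sg 1 i N k c w)
    (r : ℕ) (hr : r ≤ 2 ^ i) (B : ℕ) (hB : 1 ≤ B) :
    Par sg i r ((r * w + B) * N + r * w) ((r * w + B) * k + (r * w + B - 1))
      ((2 ^ i + r) * (B * w)) := by
  classical
  obtain ⟨ι, Z, _, _, S, hN, hs, hg, hW, hw, -⟩ := h
  have hcZ := card_active S hs hg hw
  set P : Z → Prop := fun z => S.s (S.b (Sum.inl z)) < 2 * r with hP
  -- the number of gaps to be bisected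
  have hcP : Fintype.card {z // P z} = r * w := by
    rw [Fintype.card_subtype, Finset.card_filter]
    calc ∑ z, (if P z then 1 else 0) = ∑ z, ∑ q ∈ Finset.range r,
        (if S.s (S.b (Sum.inl z)) = q * 2 ^ 1 then 1 else 0) := by
          apply Finset.sum_congr rfl
          intro z _
          obtain ⟨q, hq, h1⟩ := hs (S.b (Sum.inl z))
          by_cases hz : P z
          · rw [if_pos hz]
            have hq2 : q < r := by simp only [hP, h1] at hz; omega
            rw [Finset.sum_eq_single_of_mem q (Finset.mem_range.mpr hq2)]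
            · simp [h1]
            · intro q' _ hne
              rw [if_neg]
              rw [h1]
              omega
          · rw [if_neg hz]
            symm
            apply Finset.sum_eq_zero
            intro q' hq'
            rw [Finset.mem_range] at hq'
            rw [if_neg]
            intro h2
            apply hz
            simp only [hP, h2]
            omega
      _ = ∑ q ∈ Finset.range r, ∑ z, (if S.s (S.b (Sum.inl z)) = q * 2 ^ 1 then 1 else 0) :=
          Finset.sum_comm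
      _ = ∑ q ∈ Finset.range r, w := by
          apply Finset.sum_congr rfl
          intro q hq
          exact hw q (lt_of_lt_of_le (Finset.mem_range.mp hq) hr)
      _ = r * w := by simp
  have hcP' : Fintype.card {z // ¬ P z} = (2 ^ i - r) * w := by
    rw [Fintype.card_subtype_compl, hcZ, hcP, Nat.sub_mul]
  set φ : {z // P z} ⊕ {z // ¬ P z} → Z ⊕ Empty :=
    Sum.elim (fun z => Sum.inl z.1) (fun z => Sum.inl z.1) with hφ
  have hφi : Function.Injective φ := by
    rintro (⟨z, hz⟩ | ⟨z, hz⟩) (⟨z', hz'⟩ | ⟨z', hz'⟩) h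
    · simp only [hφ, Sum.elim_inl, Sum.inl.injEq] at h; subst h; rfl
    · simp only [hφ, Sum.elim_inl, Sum.elim_inr, Sum.inl.injEq] at h; subst h
      exact absurd hz hz'
    · simp only [hφ, Sum.elim_inl, Sum.elim_inr, Sum.inl.injEq] at h; subst h
      exact absurd hz' hz
    · simp only [hφ, Sum.elim_inr, Sum.inl.injEq] at h; subst h; rfl
  set S₁ := S.comap φ hφi with hS₁
  obtain ⟨hw', hwp, hwr⟩ := widths hsg (δ := 1) le_rfl
  have hgap : Gap S₁ 1 hw' := by
    refine ⟨hsg, hwp, le_rfl, fun z => hg z.1, fun z => ?_⟩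
    obtain ⟨q, hq, h1⟩ := hs (S.b (Sum.inl z.1))
    have h2 := hwr q
    have h3 : S₁.s (S₁.b (Sum.inl z)) = q * (2 * 1) := by
      change S.s (S.b (Sum.inl z.1)) = _
      rw [h1]; ring
    have h4 : S₁.s (S₁.a (Sum.inl z)) = (q + 1) * (2 * 1) := by
      change S.s (S.a (Sum.inl z.1)) = _
      rw [hg z.1, h1]; ring
    rw [h3, h4]
    exact h2
  have hW₁ : Wed S₁ := by
    intro e z hez
    have h1 : φ e ≠ Sum.inl z.1 := by
      intro h'
      apply hez
      exact hφi h'
    exact hW (φ e) z.1 h1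
  set m := r * w + B with hm
  have hcnt : ∀ e, cnt S₁ 1 e ≤ r * w := by
    intro e
    unfold cnt
    rw [← hcP]
    calc _ ≤ ∑ _z : {z // P z}, 1 := by
          apply Finset.sum_le_sum
          intro z _
          split_ifs <;> simp
      _ = _ := by simp
  set C : {z // P z} ⊕ {z // ¬ P z} → ℕ := fun e => m - 1 - cnt S₁ 1 e with hC
  have hC1 : ∀ e, C e < m := fun e => by simp only [hC]; omega
  obtain ⟨ε, S', hs', -, ha', hb', -⟩ := (Pool.Agent.K9h34.KE.step (C := C) hgap hW₁ (m := m)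
    (B := B) (K₀ := m - 1) (by omega) hC1
    (fun e => by have := hcnt e; simp only [hC]; omega)
    (fun e => by have := hcnt e; simp only [hC]; omega)).exists
  refine ⟨_, _, inferInstance, inferInstance, S', ?_, ?_, ?_⟩
  · simp only [Fintype.card_sum, Fintype.card_prod, Fintype.card_fin, hN, hcP]
    ring
  · simp only [Fintype.card_sum, Fintype.card_prod, Fintype.card_fin, hcP, hcP']
    obtain ⟨d, hd⟩ : ∃ d, 2 ^ i = r + d := ⟨2 ^ i - r, by omega⟩
    rw [hd, Nat.add_sub_cancel_left]
    ring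
  · intro l
    rw [hs']
    rcases l with ⟨l, u⟩ | z
    · obtain ⟨q, hq, h1⟩ := hs l
      left
      exact ⟨q, hq, by simp only [sl, hS₁, Blk.comap, h1]; ring⟩
    · obtain ⟨q, hq, h1⟩ := hs (S.b (Sum.inl z.1))
      right
      have hz := z.2
      simp only [hP, h1] at hz
      exact ⟨q, by omega, by simp only [sl, hS₁, Blk.comap, hφ, Sum.elim_inl, h1]; ring⟩

/-- two families of crossings of the same arrangement, at neighbouring depths -/
def Two (sg : ℕ → ℝ) (i r N K F₁ F₂ : ℕ) : Prop :=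
  ∃ (ι R₁ R₂ : Type) (_ : Fintype ι) (_ : Fintype R₁) (_ : Fintype R₂)
    (S₁ : Blk sg ι R₁ (K + 1)) (S₂ : Blk sg ι R₂ K),
    S₁.s = S₂.s ∧ S₁.t = S₂.t ∧ Fintype.card ι = N ∧ Fintype.card R₁ = F₁ ∧
      Fintype.card R₂ = F₂ ∧ ∀ l, Use i r (S₁.s l)

/-- bundles of `a + 2` lines -/
theorem Par.two {sg : ℕ → ℝ} (hsg : StrictMono sg) {i r N k F : ℕ} (h : Par sg i r N k F)
    (a : ℕ) : Two sg i r ((a + 2) * N) ((a + 2) * k + a) (F * (a + 2)) (F * (a + 1)) := by
  classical
  obtain ⟨ι, R, _, _, S, hN, hF, hT⟩ := h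
  set φ : Empty ⊕ R → R := Sum.elim Empty.elim id with hφ
  have hφi : Function.Injective φ := by
    rintro (z | e) (z' | e') h
    · exact z.elim
    · exact z.elim
    · exact z'.elim
    · simp only [hφ, Sum.elim_inr, id] at h; rw [h]
  set S₀ := S.comap φ hφi with hS₀
  have hgap : Gap S₀ 1 (fun _ => 1) :=
    ⟨hsg, fun _ => one_pos, le_rfl, fun z => z.elim, fun z => z.elim⟩
  have hW : Wed S₀ := fun e z => z.elim
  have hcnt : ∀ e, cnt S₀ 1 e = 0 := by
    intro e
    unfold cnt
    simp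
  have h1 := Pool.Agent.K9h34.KE.step (C := fun _ => a + 1) hgap hW (m := a + 2)
    (B := a + 2) (K₀ := a + 1) le_rfl (fun e => by omega) (fun e => by omega)
    (fun e => by rw [hcnt e])
  have h2 := Pool.Agent.K9h34.KE.step (C := fun _ => a) hgap hW (m := a + 2)
    (B := a + 1) (K₀ := a) (by omega) (fun e => by omega) (fun e => by omega)
    (fun e => by rw [hcnt e, add_zero])
  obtain ⟨ε, ⟨S₁, hs₁, ht₁, -⟩, ⟨S₂, hs₂, ht₂, -⟩⟩ := (h1.and h2).exists
  have e1 : (a + 2) * k + (a + 1) = (a + 2) * k + a + 1 := by ring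
  refine ⟨Ln ι Empty (a + 2), Ch Empty R (a + 2), Ch Empty R (a + 1), inferInstance,
    inferInstance, inferInstance, S₁, S₂, ?_, ?_, ?_, ?_, ?_, ?_⟩
  · rw [hs₁, hs₂]
  · rw [ht₁, ht₂]
    funext l
    rcases l with ⟨l, u⟩ | z
    · rfl
    · exact z.elim
  · simp only [Fintype.card_sum, Fintype.card_prod, Fintype.card_fin, hN]
    simp [mul_comm]
  · simp [hF]
  · simp [hF]
  · intro l
    rw [hs₁]
    rcases l with ⟨l, u⟩ | z
    · exact hT l
    · exact z.elim

end Pool.Agent.K9h34.KE
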