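import Pool.Agent.K9h34.KE.Count

/-!
# Bisection of the directions of a line arrangement: the step
-/

namespace Pool.Agent.K9h34.KE

open KLev Finset Filter Topology

/-- distance of a lower and an upper child -/
lemma alg_cmp {p r q x y c i j : ℝ} (hx : 0 < x) (hy : 0 < y) (hpr : p < r) (hrq : r < q)
    (hrel : x * (q - r) = y * (r - p)) :
    (i * x - (c - 1 / 2) * wd x y) / (r - p) - ((c - 1 / 2) * wd x y - j * y) / (q - r) =
      (i + j - c + 1 / 2) * (x / (r - p)) := by
  have h1 : r - p ≠ 0 := by linarith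
  have h2 : q - r = y * (r - p) / x := by
    rw [eq_div_iff hx.ne']; linarith
  rw [h2]
  unfold wd
  have hxy : x + y ≠ 0 := by positivity
  field_simp
  ring

section

variable {sg : ℕ → ℝ} {ι Z U : Type} [Fintype ι] {k : ℕ}
variable {S : Blk sg ι (Z ⊕ U) k} {δ : ℕ} {h : ℕ → ℝ} (C : Z ⊕ U → ℕ)

lemma xi_L (H : Gap S δ h) {B : ℕ} (z : Z) (i j : Fin B) :
    xi S δ h C (Sum.inl (z, i) : Ch Z U B) - xi S δ h C (Sum.inl (z, j) : Ch Z U B) =
      (((i:ℕ):ℝ) - (j:ℕ)) * (h (S.s (S.b (Sum.inl z))) /
        (sg (S.s (S.b (Sum.inl z)) + δ) - sg (S.s (S.b (Sum.inl z))))) := by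
  simp only [xi]
  ring

lemma xi_H (H : Gap S δ h) {B : ℕ} (z : Z) (i j : Fin B) :
    xi S δ h C (Sum.inr (Sum.inl (z, i)) : Ch Z U B) -
      xi S δ h C (Sum.inr (Sum.inl (z, j)) : Ch Z U B) =
      (((j:ℕ):ℝ) - (i:ℕ)) * (h (S.s (S.a (Sum.inl z))) /
        (sg (S.s (S.a (Sum.inl z))) - sg (S.s (S.b (Sum.inl z)) + δ))) := by
  simp only [xi]
  ring

lemma xi_LH (H : Gap S δ h) {B : ℕ} (z : Z) (i j : Fin B) :
    xi S δ h C (Sum.inl (z, i) : Ch Z U B) - xi S δ h C (Sum.inr (Sum.inl (z, j)) : Ch Z U B) =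
      (((j:ℕ):ℝ) + (i:ℕ) - C (Sum.inl z) + 1 / 2) * (h (S.s (S.b (Sum.inl z))) /
        (sg (S.s (S.b (Sum.inl z)) + δ) - sg (S.s (S.b (Sum.inl z))))) := by
  simp only [xi, row]
  rw [alg_cmp (H.pos _) (H.pos _) (H.lt1 z) (H.lt2 z) (H.rel z)]
  ring

lemma fac1 (H : Gap S δ h) (z : Z) : 0 < h (S.s (S.b (Sum.inl z))) /
    (sg (S.s (S.b (Sum.inl z)) + δ) - sg (S.s (S.b (Sum.inl z)))) :=
  div_pos (H.pos _) (sub_pos.mpr (H.lt1 z))

lemma fac2 (H : Gap S δ h) (z : Z) : 0 < h (S.s (S.a (Sum.inl z))) /
    (sg (S.s (S.a (Sum.inl z))) - sg (S.s (S.b (Sum.inl z)) + δ)) :=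
  div_pos (H.pos _) (sub_pos.mpr (H.lt2 z))

/-- different new events at the same event have different local abscissas -/
lemma xi_inj (H : Gap S δ h) {B : ℕ} (v v' : Ch Z U B) (h1 : base v = base v')
    (h2 : xi S δ h C v = xi S δ h C v') : v = v' := by
  rcases v with ⟨z, i⟩ | ⟨z, i⟩ | ⟨w, i⟩ <;> rcases v' with ⟨z', j⟩ | ⟨z', j⟩ | ⟨w', j⟩
  · simp only [base, Sum.inl.injEq] at h1
    subst h1
    have h3 := xi_L C H z i j
    rw [h2, sub_self] at h3
    rcases mul_eq_zero.mp h3.symm with h4 | h4
    · have h5 : (i:ℕ) = j := by exact_mod_cast sub_eq_zero.mp h4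
      rw [Fin.ext h5]
    · exact absurd h4 (fac1 H z).ne'
  · simp only [base, Sum.inl.injEq] at h1
    subst h1
    have h3 := xi_LH C H z i j
    rw [h2, sub_self] at h3
    rcases mul_eq_zero.mp h3.symm with h4 | h4
    · exact absurd h4 half_ne
    · exact absurd h4 (fac1 H z).ne'
  · simp [base] at h1
  · simp only [base, Sum.inl.injEq] at h1
    subst h1
    have h3 := xi_LH C H z j i
    rw [h2, sub_self] at h3
    rcases mul_eq_zero.mp h3.symm with h4 | h4
    · exact absurd h4 half_ne
    · exact absurd h4 (fac1 H z).ne'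
  · simp only [base, Sum.inl.injEq] at h1
    subst h1
    have h3 := xi_H C H z i j
    rw [h2, sub_self] at h3
    rcases mul_eq_zero.mp h3.symm with h4 | h4
    · have h5 : (j:ℕ) = i := by exact_mod_cast sub_eq_zero.mp h4
      rw [Fin.ext h5]
    · exact absurd h4 (fac2 H z).ne'
  · simp [base] at h1
  · simp [base] at h1
  · simp [base] at h1
  · simp only [base, Sum.inr.injEq] at h1
    subst h1
    have h5 : sg (S.s (S.b (Sum.inr w))) < sg (S.s (S.a (Sum.inr w))) :=
      H.mono (S.crs (Sum.inr w)).hs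
    simp only [xi] at h2
    rw [div_left_inj' (sub_pos.mpr h5).ne'] at h2
    have h6 := H.pos (S.s (S.b (Sum.inr w)))
    have h7 := H.pos (S.s (S.a (Sum.inr w)))
    have h8 : (((i:ℕ):ℝ) - (j:ℕ)) * (h (S.s (S.b (Sum.inr w))) + h (S.s (S.a (Sum.inr w)))) = 0 := by
      linear_combination h2
    rcases mul_eq_zero.mp h8 with h4 | h4
    · have h5 : (i:ℕ) = j := by exact_mod_cast sub_eq_zero.mp h4
      rw [Fin.ext h5]
    · linarith

variable (S) in
/-- the new line of the active event `z` passes below the event `e` -/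
def Rel (δ : ℕ) (e : Z ⊕ U) (z : Z) : Prop :=
  S.Y (Sum.inl z) + sg (S.s (S.b (Sum.inl z)) + δ) * (S.X e - S.X (Sum.inl z)) < S.Y e

variable (S δ h) in
/-- the local form of this relation -/
def loc {B : ℕ} (v : Ch Z U B) : Ch Z U B → Prop
  | Sum.inl (z, i) => xi S δ h C (Sum.inl (z, i) : Ch Z U B) < xi S δ h C v
  | Sum.inr (Sum.inl (z, i)) => xi S δ h C v < xi S δ h C (Sum.inr (Sum.inl (z, i)) : Ch Z U B)
  | Sum.inr (Sum.inr _) => False

/-- the bisection step -/
theorem step [Fintype Z] [Finite U] (H : Gap S δ h) (hW : Wed S) {m B K₀ : ℕ} (hB : B ≤ m)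
    (hC : ∀ e, C e < m) (hC' : ∀ e, B ≤ C e + 1)
    (hcnt : ∀ e, C e + cnt S δ e = K₀) :
    ∀ᶠ ε in 𝓝[>] (0:ℝ), ∃ S' : Blk sg (Ln ι Z m) (Ch Z U B) (m * k + K₀),
      S'.s = sl S δ ∧ S'.t = ic S δ h C ε ∧ S'.a = na S C hB hC ∧ S'.b = nb S hB ∧
      ∀ v v' : Ch Z U B, v ≠ v' → ∀ z, base v' = Sum.inl z → ∀ σ : ℕ,
        S'.s (S'.b v') < σ → σ < S'.s (S'.a v') →
        (S'.Y v' + sg σ * (S'.X v - S'.X v') ≠ S'.Y v ∧
        (S'.Y v' + sg σ * (S'.X v - S'.X v') < S'.Y v ↔
          ((base v = Sum.inl z ∧ loc S δ h C v v') ∨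
            (base v ≠ Sum.inl z ∧ Rel S δ (base v) z)))) := by
  classical
  have hd1 := H.d1
  -- the events are crossings
  have hE1 : ∀ᶠ ε in 𝓝[>] (0:ℝ), ∀ (v : Ch Z U B) (c : Ln ι Z m),
      ((LA S δ v c + ε * LB S δ h C v c < 0 ↔
        (LA S δ v c < 0 ∨ (LA S δ v c = 0 ∧ LB S δ h C v c < 0))) ∧
      (LA S δ v c + ε * LB S δ h C v c = 0 ↔ (LA S δ v c = 0 ∧ LB S δ h C v c = 0))) := by
    rw [eventually_all]; intro v
    rw [eventually_all]; intro c
    exact ev_lex _ _
  have hE2 : ∀ᶠ ε in 𝓝[>] (0:ℝ), ∀ (v v' : Ch Z U B),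
      (((S.X (base v) - S.X (base v')) + ε * (xi S δ h C v - xi S δ h C v') < 0 ↔
        ((S.X (base v) - S.X (base v')) < 0 ∨ ((S.X (base v) - S.X (base v')) = 0 ∧
          xi S δ h C v - xi S δ h C v' < 0))) ∧
      ((S.X (base v) - S.X (base v')) + ε * (xi S δ h C v - xi S δ h C v') = 0 ↔
        ((S.X (base v) - S.X (base v')) = 0 ∧ xi S δ h C v - xi S δ h C v' = 0))) := by
    rw [eventually_all]; intro v
    rw [eventually_all]; intro v'
    exact ev_lex _ _
  have hE3 : ∀ᶠ ε in 𝓝[>] (0:ℝ), ∀ (v v' : Ch Z U B) (σ : Fin (S.s (S.a (base v')))),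
      (((S.Y (base v') + sg (σ:ℕ) * (S.X (base v) - S.X (base v')) - S.Y (base v)) +
          ε * (eta S δ h C v' + sg (σ:ℕ) * (xi S δ h C v - xi S δ h C v') - eta S δ h C v) < 0 ↔
        ((S.Y (base v') + sg (σ:ℕ) * (S.X (base v) - S.X (base v')) - S.Y (base v)) < 0 ∨
        ((S.Y (base v') + sg (σ:ℕ) * (S.X (base v) - S.X (base v')) - S.Y (base v)) = 0 ∧
          (eta S δ h C v' + sg (σ:ℕ) * (xi S δ h C v - xi S δ h C v') - eta S δ h C v) < 0))) ∧
      ((S.Y (base v') + sg (σ:ℕ) * (S.X (base v) - S.X (base v')) - S.Y (base v)) +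
          ε * (eta S δ h C v' + sg (σ:ℕ) * (xi S δ h C v - xi S δ h C v') - eta S δ h C v) = 0 ↔
        ((S.Y (base v') + sg (σ:ℕ) * (S.X (base v) - S.X (base v')) - S.Y (base v)) = 0 ∧
          (eta S δ h C v' + sg (σ:ℕ) * (xi S δ h C v - xi S δ h C v') - eta S δ h C v) = 0))) := by
    rw [eventually_all]; intro v
    rw [eventually_all]; intro v'
    rw [eventually_all]; intro σ
    exact ev_lex _ _
  filter_upwards [hE1, hE2, hE3, self_mem_nhdsWithin] with ε h1 h2 h3 hε
  have hε' : (0:ℝ) < ε := hε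
  -- heights
  have hht : ∀ (v : Ch Z U B) (c : Ln ι Z m),
      sg (sl S δ c) * (S.X (base v) + ε * xi S δ h C v) + ic S δ h C ε c -
      (S.Y (base v) + ε * eta S δ h C v) = LA S δ v c + ε * LB S δ h C v c :=
    fun v c => height_eq S δ h C ε v c
  have hcrs : ∀ v : Ch Z U B, Crs sg (sl S δ) (ic S δ h C ε) (m * k + K₀)
      (na S C hB hC v) (nb S hB v) (S.X (base v) + ε * xi S δ h C v)
      (S.Y (base v) + ε * eta S δ h C v) := by
    intro v
    have hz : ∀ c : Ln ι Z m, sg (sl S δ c) * (S.X (base v) + ε * xi S δ h C v) +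
        ic S δ h C ε c = (S.Y (base v) + ε * eta S δ h C v) ↔
        (LA S δ v c = 0 ∧ LB S δ h C v c = 0) := by
      intro c
      rw [← (h1 v c).2, ← hht v c, sub_eq_zero]
    refine ⟨?_, ?_, ?_, ?_, ?_⟩
    · rcases v with ⟨z, i⟩ | ⟨z, i⟩ | ⟨w, i⟩
      · simp only [na, nb, sl]; omega
      · simp only [na, nb, sl]; have := H.gap z; omega
      · simp only [na, nb, sl]; exact (S.crs (Sum.inr w)).hs
    · rw [hz]
      rcases v with ⟨z, i⟩ | ⟨z, i⟩ | ⟨w, i⟩
      · exact ⟨LA_z _ z rfl, LB_z C H _ z rfl⟩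
      · refine ⟨LA_a (Sum.inr (Sum.inl (z, i)) : Ch Z U B) _, ?_⟩
        have := LB_a C H (Sum.inr (Sum.inl (z, i)) : Ch Z U B) (Fin.castLE hB i)
        simp only [Fin.val_castLE, sub_self, zero_mul] at this
        exact this
      · refine ⟨LA_a (Sum.inr (Sum.inr (w, i)) : Ch Z U B) _, ?_⟩
        have hi := i.2
        have hCw := hC (Sum.inr w)
        have hCw' := hC' (Sum.inr w)
        have := LB_a C H (Sum.inr (Sum.inr (w, i)) : Ch Z U B)
          (⟨C (Sum.inr w) - i, by omega⟩ : Fin m)
        refine this.trans ?_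
        simp only []
        rw [Nat.cast_sub (by omega)]
        ring
    · rw [hz]
      rcases v with ⟨z, i⟩ | ⟨z, i⟩ | ⟨w, i⟩
      · refine ⟨LA_b (Sum.inl (z, i) : Ch Z U B) _, ?_⟩
        have := LB_b C H (Sum.inl (z, i) : Ch Z U B) (Fin.castLE hB i)
        simp only [Fin.val_castLE, sub_self, zero_mul] at this
        exact this
      · exact ⟨LA_z _ z rfl, LB_z C H _ z rfl⟩
      · refine ⟨LA_b (Sum.inr (Sum.inr (w, i)) : Ch Z U B) _, ?_⟩
        have := LB_b C H (Sum.inr (Sum.inr (w, i)) : Ch Z U B) (Fin.castLE hB i)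
        simp only [Fin.val_castLE, sub_self, zero_mul] at this
        exact this
    · intro c hca hcb
      rw [Ne, hz]
      rintro ⟨g1, g2⟩
      have hmz : ∀ {x y : ℝ}, 0 < y → x * y = 0 → x = 0 := by
        intro x y hy hxy
        rcases mul_eq_zero.mp hxy with h4 | h4
        · exact h4
        · exact absurd h4 hy.ne'
      rcases c with ⟨c, u⟩ | z
      · by_cases hc1 : c = S.a (base v)
        · subst hc1
          rw [LB_a C H] at g2
          rcases v with ⟨z, i⟩ | ⟨z, i⟩ | ⟨w, i⟩
          · exact half_ne (hmz (H.pos _) g2)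
          · have g3 := hmz (H.pos _) g2
            simp only [sub_eq_zero, Nat.cast_inj] at g3
            apply hca
            simp only [na, base]
            congr 2
            exact Fin.ext g3
          · have g3 := hmz (H.pos _) g2
            have g3 : (u:ℝ) + (i:ℕ) = C (Sum.inr w) := by linarith
            have g4 : (u:ℕ) + (i:ℕ) = C (Sum.inr w) := by exact_mod_cast g3
            apply hca
            simp only [na, base]
            congr 2
            apply Fin.ext
            simp only []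
            omega
        · by_cases hc2 : c = S.b (base v)
          · subst hc2
            rw [LB_b C H] at g2
            rcases v with ⟨z, i⟩ | ⟨z, i⟩ | ⟨w, i⟩
            · have g3 := hmz (H.pos _) g2
              simp only [sub_eq_zero, Nat.cast_inj] at g3
              apply hcb
              simp only [nb, base]
              congr 2
              exact Fin.ext g3
            · exact half_ne (hmz (H.pos _) g2)
            · have g3 := hmz (H.pos _) g2
              simp only [sub_eq_zero, Nat.cast_inj] at g3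
              apply hcb
              simp only [nb, base]
              congr 2
              exact Fin.ext g3
          · exact LA_c v c u hc1 hc2 g1
      · by_cases hz' : base v = Sum.inl z
        · rcases v with ⟨z', i⟩ | ⟨z', i⟩ | ⟨w, i⟩
          · simp only [base, Sum.inl.injEq] at hz'
            subst hz'
            exact hca rfl
          · simp only [base, Sum.inl.injEq] at hz'
            subst hz'
            exact hcb rfl
          · simp [base] at hz'
        · exact LA_z' H hW v z hz' g1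
    · have h4 := count_new C H hW hC hC' v
      have h5 := hcnt (base v)
      have h6 : m * k + C (base v) + cnt S δ (base v) = m * k + K₀ := by omega
      rw [← h6, ← h4]
      apply Finset.sum_congr rfl
      intro c _
      have h7 := (h1 v c).1
      rw [← hht v c, sub_neg] at h7
      simp only [h7]
  refine ⟨{ s := sl S δ, t := ic S δ h C ε, a := na S C hB hC, b := nb S hB
            X := fun v => S.X (base v) + ε * xi S δ h C v
            Y := fun v => S.Y (base v) + ε * eta S δ h C v
            crs := hcrs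
            inj := ?_ }, rfl, rfl, rfl, rfl, ?_⟩
  · intro v v' hvv
    simp only [] at hvv
    have h4 : (S.X (base v) - S.X (base v')) + ε * (xi S δ h C v - xi S δ h C v') = 0 := by
      linarith
    rw [(h2 v v').2] at h4
    exact xi_inj C H v v' (S.inj (sub_eq_zero.mp h4.1)) (sub_eq_zero.mp h4.2)
  · intro v v' hvv z hz σ hσ1 hσ2
    simp only [] at hσ1 hσ2 ⊢
    have hσ3 : S.s (S.b (Sum.inl z)) < σ ∧ σ < S.s (S.a (Sum.inl z)) := by
      have := H.gap z
      rcases v' with ⟨z', i⟩ | ⟨z', i⟩ | ⟨w, i⟩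
      · simp only [base, Sum.inl.injEq] at hz
        subst hz
        simp only [na, nb, sl] at hσ1 hσ2
        omega
      · simp only [base, Sum.inl.injEq] at hz
        subst hz
        simp only [na, nb, sl] at hσ1 hσ2
        omega
      · simp [base] at hz
    have hσ4 : σ < S.s (S.a (base v')) := by rw [hz]; exact hσ3.2
    have h4 := h3 v v' ⟨σ, hσ4⟩
    simp only [] at h4
    have e1 : (S.Y (base v') + sg σ * (S.X (base v) - S.X (base v')) - S.Y (base v)) +
          ε * (eta S δ h C v' + sg σ * (xi S δ h C v - xi S δ h C v') - eta S δ h C v) =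
        (S.Y (base v') + ε * eta S δ h C v') + sg σ * ((S.X (base v) + ε * xi S δ h C v) -
          (S.X (base v') + ε * xi S δ h C v')) - (S.Y (base v) + ε * eta S δ h C v) := by ring
    rw [e1, sub_neg] at h4
    have h4b := h4.2
    rw [sub_eq_zero (a := (S.Y (base v') + ε * eta S δ h C v') + sg σ * ((S.X (base v) +
      ε * xi S δ h C v) - (S.X (base v') + ε * xi S δ h C v')))] at h4b
    rw [Ne, h4.1, h4b]
    by_cases hbz : base v = Sum.inl z
    · -- same event
      have hbb : base v = base v' := by rw [hbz, hz]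
      have hne : xi S δ h C v ≠ xi S δ h C v' := fun h' => hvv (xi_inj C H v v' hbb h')
      have e2 : S.Y (base v') + sg σ * (S.X (base v) - S.X (base v')) - S.Y (base v) = 0 := by
        rw [hbb]; ring
      have k1 := LB_z (m := m) C H v z hbz
      have k2 := LB_z (m := m) C H v' z hz
      simp only [LB] at k1 k2
      have e3 : eta S δ h C v' + sg σ * (xi S δ h C v - xi S δ h C v') - eta S δ h C v =
          (sg σ - sg (S.s (S.b (Sum.inl z)) + δ)) * (xi S δ h C v - xi S δ h C v') := by
        linear_combination k1 - k2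
      have hσne : sg σ - sg (S.s (S.b (Sum.inl z)) + δ) ≠ 0 ∧
          (((sg σ - sg (S.s (S.b (Sum.inl z)) + δ)) * (xi S δ h C v - xi S δ h C v') < 0) ↔
            loc S δ h C v v') := by
        rcases v' with ⟨z', i⟩ | ⟨z', i⟩ | ⟨w, i⟩
        · simp only [base, Sum.inl.injEq] at hz
          subst hz
          simp only [na, nb, sl] at hσ1 hσ2
          have h5 : sg σ < sg (S.s (S.b (Sum.inl z')) + δ) := H.mono hσ2
          refine ⟨by linarith, ?_⟩
          simp only [loc]
          constructor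
          · intro h6
            by_contra h7
            push Not at h7
            have := mul_nonneg_of_nonpos_of_nonpos (a := sg σ - sg (S.s (S.b (Sum.inl z')) + δ))
              (b := xi S δ h C v - xi S δ h C (Sum.inl (z', i))) (by linarith) (by linarith)
            linarith
          · intro h6
            exact mul_neg_of_neg_of_pos (by linarith) (by linarith)
        · simp only [base, Sum.inl.injEq] at hz
          subst hz
          simp only [na, nb, sl] at hσ1 hσ2
          have h5 : sg (S.s (S.b (Sum.inl z')) + δ) < sg σ := H.mono hσ1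
          refine ⟨by linarith, ?_⟩
          simp only [loc]
          constructor
          · intro h6
            by_contra h7
            push Not at h7
            have := mul_nonneg (a := sg σ - sg (S.s (S.b (Sum.inl z')) + δ))
              (b := xi S δ h C v - xi S δ h C (Sum.inr (Sum.inl (z', i)))) (by linarith)
              (by linarith)
            linarith
          · intro h6
            exact mul_neg_of_pos_of_neg (by linarith) (by linarith)
        · simp [base] at hz
      rw [e3]
      refine ⟨?_, ?_⟩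
      · rintro ⟨-, h6⟩
        rcases mul_eq_zero.mp h6 with h7 | h7
        · exact hσne.1 h7
        · exact hne (sub_eq_zero.mp h7)
      · rw [hσne.2]
        constructor
        · rintro (h6 | ⟨-, h6⟩)
          · rw [e2] at h6; exact absurd h6 (lt_irrefl _)
          · exact Or.inl ⟨hbz, h6⟩
        · rintro (⟨-, h6⟩ | ⟨h6, -⟩)
          · exact Or.inr ⟨e2, h6⟩
          · exact absurd hbz h6
    · have h5 := hW (base v) z hbz
      rw [hz]
      simp only [hbz, false_and, false_or, ne_eq, not_false_eq_true, true_and]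
      have hr1 : S.s (S.b (Sum.inl z)) < S.s (S.b (Sum.inl z)) + δ := by omega
      have hr2 : S.s (S.b (Sum.inl z)) + δ < S.s (S.a (Sum.inl z)) := by
        have := H.gap z; omega
      unfold Rel
      rcases h5 with h5 | h5
      · have g1 := h5 σ hσ3.1 hσ3.2
        have g2 := h5 _ hr1 hr2
        have g3 : S.Y (Sum.inl z) + sg σ * (S.X (base v) - S.X (Sum.inl z)) - S.Y (base v) < 0 := by
          linarith
        exact ⟨fun h6 => by rw [h6.1] at g3; exact lt_irrefl _ g3,
          ⟨fun _ => g2, fun _ => Or.inl g3⟩⟩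
      · have g1 := h5 σ hσ3.1 hσ3.2
        have g2 := h5 _ hr1 hr2
        have g3 : 0 < S.Y (Sum.inl z) + sg σ * (S.X (base v) - S.X (Sum.inl z)) - S.Y (base v) := by
          linarith
        refine ⟨fun h6 => by rw [h6.1] at g3; exact lt_irrefl _ g3, ⟨?_, ?_⟩⟩
        · rintro (h6 | ⟨h6, -⟩)
          · linarith
          · rw [h6] at g3; exact absurd g3 (lt_irrefl _)
        · intro h6; linarith

end

end Pool.Agent.K9h34.KE
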