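import Pool.Agent.K9h34.KE.Par
import Pool.Agent.KLev.Levels

/-!
# Bisection of the directions: vertices of the level
-/

namespace Pool.Agent.K9h34.KE

open KLev KLev.Levels Finset Filter Topology

lemma ev_cont {f : ℝ → ℝ} (hf : Continuous f) (h0 : f 0 ≠ 0) :
    ∀ᶠ z in 𝓝[>] (0:ℝ), (f z ≠ 0 ∧ (f z < 0 ↔ f 0 < 0)) := by
  have h1 : Tendsto f (𝓝[>] (0:ℝ)) (𝓝 (f 0)) := hf.continuousAt.tendsto.mono_left nhdsWithin_le_nhds
  rcases lt_or_gt_of_ne h0 with h | h
  · filter_upwards [h1.eventually (gt_mem_nhds h)] with z hz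
    exact ⟨hz.ne, by simp [hz, h]⟩
  · filter_upwards [h1.eventually (lt_mem_nhds h)] with z hz
    exact ⟨hz.ne', by constructor <;> intro h' <;> linarith⟩

/-- the crossings persist after a small perturbation of the intercepts -/
theorem perturb {sg : ℕ → ℝ} (hsg : StrictMono sg) {ι R : Type} [Fintype ι] [Finite R] {k : ℕ}
    (S : Blk sg ι R k) (n : ι → ℕ) (hn : ∀ i, n i ≠ 0) :
    ∀ᶠ z in 𝓝[>] (0:ℝ), ∃ S' : Blk sg ι R k, S'.s = S.s ∧ S'.t = fun i => S.t i + z ^ n i := by
  classical
  have hd : ∀ e, (0:ℝ) < sg (S.s (S.a e)) - sg (S.s (S.b e)) := by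
    intro e
    have := hsg (S.crs e).hs
    linarith
  set X : ℝ → R → ℝ := fun z e => ((S.t (S.b e) + z ^ n (S.b e)) - (S.t (S.a e) + z ^ n (S.a e))) /
    (sg (S.s (S.a e)) - sg (S.s (S.b e))) with hX
  set Y : ℝ → R → ℝ := fun z e => sg (S.s (S.a e)) * X z e + (S.t (S.a e) + z ^ n (S.a e)) with hY
  have hXc : ∀ e, Continuous (fun z => X z e) := by
    intro e
    simp only [hX]
    fun_prop
  have hYc : ∀ e, Continuous (fun z => Y z e) := by
    intro e
    have := hXc e
    simp only [hY]
    fun_prop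
  have hX0 : ∀ e, X 0 e = S.X e := by
    intro e
    simp only [hX, zero_pow (hn _), add_zero]
    rw [div_eq_iff (hd e).ne']
    linarith [(S.crs e).ha, (S.crs e).hb]
  have hY0 : ∀ e, Y 0 e = S.Y e := by
    intro e
    simp only [hY, hX0, zero_pow (hn _), add_zero]
    exact (S.crs e).ha
  have h1 : ∀ᶠ z in 𝓝[>] (0:ℝ), ∀ (e : R) (c : ι), c ≠ S.a e → c ≠ S.b e →
      (sg (S.s c) * X z e + (S.t c + z ^ n c) - Y z e ≠ 0 ∧
      (sg (S.s c) * X z e + (S.t c + z ^ n c) - Y z e < 0 ↔
        sg (S.s c) * S.X e + S.t c - S.Y e < 0)) := by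
    rw [eventually_all]; intro e
    rw [eventually_all]; intro c
    by_cases hca : c = S.a e
    · exact Filter.Eventually.of_forall (fun _ h => absurd hca h)
    by_cases hcb : c = S.b e
    · exact Filter.Eventually.of_forall (fun _ _ h => absurd hcb h)
    have h2 := hXc e
    have h3 := hYc e
    have h4 := ev_cont (f := fun z => sg (S.s c) * X z e + (S.t c + z ^ n c) - Y z e)
      (by fun_prop) (by
      simp only [hX0, hY0, zero_pow (hn _), add_zero]
      exact sub_ne_zero.mpr ((S.crs e).hne c hca hcb))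
    filter_upwards [h4] with z hz _ _
    simp only [hX0, hY0, zero_pow (hn _), add_zero] at hz
    exact hz
  have h2 : ∀ᶠ z in 𝓝[>] (0:ℝ), ∀ (e e' : R), e ≠ e' → X z e - X z e' ≠ 0 := by
    rw [eventually_all]; intro e
    rw [eventually_all]; intro e'
    by_cases hee : e = e'
    · exact Filter.Eventually.of_forall (fun _ h => absurd hee h)
    have h2 := hXc e
    have h3 := hXc e'
    have h4 := ev_cont (f := fun z => X z e - X z e') (by fun_prop) (by
      simp only [hX0]
      exact sub_ne_zero.mpr (fun h => hee (S.inj h)))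
    filter_upwards [h4] with z hz _
    exact hz.1
  filter_upwards [h1, h2] with z hz1 hz2
  have hYb : ∀ e, sg (S.s (S.b e)) * X z e + (S.t (S.b e) + z ^ n (S.b e)) = Y z e := by
    intro e
    have h3 := (hd e).ne'
    have h4 : X z e * (sg (S.s (S.a e)) - sg (S.s (S.b e))) =
        (S.t (S.b e) + z ^ n (S.b e)) - (S.t (S.a e) + z ^ n (S.a e)) := by
      simp only [hX]
      rw [div_mul_cancel₀ _ h3]
    simp only [hY]
    linarith
  refine ⟨{ s := S.s, t := fun i => S.t i + z ^ n i, a := S.a, b := S.b, X := X z, Y := Y z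
            crs := fun e => ⟨(S.crs e).hs, rfl, hYb e, ?_, ?_⟩, inj := ?_ }, rfl, rfl⟩
  · intro c hca hcb
    exact sub_ne_zero.mp (hz1 e c hca hcb).1
  · refine Eq.trans ?_ (S.crs e).hcard
    apply Finset.sum_congr rfl
    intro c _
    have hYa : sg (S.s (S.a e)) * X z e + (S.t (S.a e) + z ^ n (S.a e)) = Y z e := rfl
    by_cases hca : c = S.a e
    · subst hca
      rw [hYa, (S.crs e).ha]
      simp
    by_cases hcb : c = S.b e
    · subst hcb
      rw [hYb, (S.crs e).hb]
      simp
    have h3 := (hz1 e c hca hcb).2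
    rw [sub_neg, sub_neg] at h3
    simp only [h3]
  · intro e e' h
    by_contra hee
    exact hz2 e e' hee (sub_eq_zero.mpr h)

/-- far away lines of the smallest slope -/
theorem Two.pad {sg : ℕ → ℝ} {i r N K F₁ F₂ : ℕ} (h : Two sg i r N K F₁ F₂) (p q : ℕ) :
    Two sg i r (N + (p + q)) (K + q) F₁ F₂ := by
  classical
  obtain ⟨ι, R₁, R₂, _, _, _, S₁, S₂, hs, ht, hN, hF₁, hF₂, hT⟩ := h
  obtain ⟨M, hM₁, hM₂⟩ : ∃ M : ℝ, (∀ e, |S₁.Y e - sg 0 * S₁.X e| < M) ∧
      (∀ e, |S₂.Y e - sg 0 * S₂.X e| < M) := by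
    refine ⟨(∑ e, |S₁.Y e - sg 0 * S₁.X e|) + (∑ e, |S₂.Y e - sg 0 * S₂.X e|) + 1,
      fun e => ?_, fun e => ?_⟩
    · have h1 : |S₁.Y e - sg 0 * S₁.X e| ≤ ∑ e, |S₁.Y e - sg 0 * S₁.X e| :=
        Finset.single_le_sum (f := fun e => |S₁.Y e - sg 0 * S₁.X e|) (fun _ _ => abs_nonneg _)
          (Finset.mem_univ e)
      have h2 : 0 ≤ ∑ e, |S₂.Y e - sg 0 * S₂.X e| := Finset.sum_nonneg (fun _ _ => abs_nonneg _)
      linarith
    · have h1 : |S₂.Y e - sg 0 * S₂.X e| ≤ ∑ e, |S₂.Y e - sg 0 * S₂.X e| :=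
        Finset.single_le_sum (f := fun e => |S₂.Y e - sg 0 * S₂.X e|) (fun _ _ => abs_nonneg _)
          (Finset.mem_univ e)
      have h2 : 0 ≤ ∑ e, |S₁.Y e - sg 0 * S₁.X e| := Finset.sum_nonneg (fun _ _ => abs_nonneg _)
      linarith
  have key : ∀ {k : ℕ} {a b : ι} {X Y : ℝ}, Crs sg S₁.s S₁.t k a b X Y → |Y - sg 0 * X| < M →
      Crs sg (Sum.elim S₁.s (fun _ => 0)) (Sum.elim S₁.t (Sum.elim (fun _ : Fin p => M)
        (fun _ : Fin q => -M))) (k + q) (Sum.inl a) (Sum.inl b) X Y := by
    intro k a b X Y hc hY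
    have hY' := abs_lt.mp hY
    refine ⟨hc.hs, hc.ha, hc.hb, ?_, ?_⟩
    · rintro (c | c | c) h1 h2
      · exact hc.hne c (fun h => h1 (by rw [h])) (fun h => h2 (by rw [h]))
      · simp only [Sum.elim_inr, Sum.elim_inl]
        intro h; linarith [hY'.2]
      · simp only [Sum.elim_inr]
        intro h; linarith [hY'.1]
    · rw [Fintype.sum_sum_type, Fintype.sum_sum_type]
      have e1 : ¬ (sg 0 * X + M < Y) := by linarith [hY'.2]
      have e2 : sg 0 * X + -M < Y := by linarith [hY'.1]
      simp only [Sum.elim_inl, Sum.elim_inr, e1, e2, if_true, if_false]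
      refine congrArg₂ (· + ·) (Eq.trans (Finset.sum_congr rfl fun i _ => ?_) hc.hcard) (by simp)
      congr
  refine ⟨ι ⊕ (Fin p ⊕ Fin q), R₁, R₂, inferInstance, inferInstance, inferInstance,
    { s := Sum.elim S₁.s (fun _ => 0)
      t := Sum.elim S₁.t (Sum.elim (fun _ : Fin p => M) (fun _ : Fin q => -M))
      a := fun e => Sum.inl (S₁.a e), b := fun e => Sum.inl (S₁.b e), X := S₁.X, Y := S₁.Y
      crs := fun e => ?_, inj := S₁.inj },
    { s := Sum.elim S₁.s (fun _ => 0)
      t := Sum.elim S₁.t (Sum.elim (fun _ : Fin p => M) (fun _ : Fin q => -M))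
      a := fun e => Sum.inl (S₂.a e), b := fun e => Sum.inl (S₂.b e), X := S₂.X, Y := S₂.Y
      crs := fun e => ?_, inj := S₂.inj }, rfl, rfl, ?_, hF₁, hF₂, ?_⟩
  · have h1 := key (S₁.crs e) (hM₁ e)
    have e1 : K + 1 + q = K + q + 1 := by ring
    rw [e1] at h1
    exact h1
  · have h1 := S₂.crs e
    rw [← hs, ← ht] at h1
    exact key h1 (hM₂ e)
  · simp [hN]
  · rintro (l | l)
    · exact hT l
    · exact Or.inl ⟨0, Nat.zero_le _, rfl⟩

/-- a crossing of depth `k` is a vertex of the levels `k` and `k + 1` -/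
theorem vertices {sg : ℕ → ℝ} (hsg : StrictMono sg) {ι : Type} [Fintype ι] {s' : ι → ℕ}
    {t : ι → ℝ} {g : ι → ℝ × ℝ} (hg : g = fun i => (sg (s' i), t i)) (hginj : Function.Injective g) {Γ : Finset (ℝ × ℝ)}
    (hΓ' : ∀ l, l ∈ Γ ↔ ∃ i, g i = l) {k : ℕ} {a b : ι} {X Y : ℝ} (h : Crs sg s' t k a b X Y) :
    IsVertex Γ k (X, Y) ∧ IsVertex Γ (k + 1) (X, Y) ∧ level Γ (X, Y) = k := by
  classical
  have hab := h.ne
  set s : ι → ℝ := fun i => sg (s' i) with hsdef
  have hs : s b < s a := hsg h.hs
  have hΓ : Γ = Finset.univ.image g := by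
    ext l; rw [hΓ' l]; simp
  have hmem : ∀ i, g i ∈ Γ := fun i => by simp [hΓ]
  have hlev : ∀ p : ℝ × ℝ, level Γ p =
      ((Finset.univ : Finset ι).filter (fun i => s i * p.1 + t i < p.2)).card := by
    intro p
    unfold level
    rw [hΓ, Finset.filter_image, Finset.card_image_of_injective _ hginj, hg]
    rfl
  have hcnt : ((Finset.univ : Finset ι).filter (fun i => s i * X + t i < Y)).card = k := by
    rw [Finset.card_filter]; convert h.hcard
  have hcont : ∀ i, Continuous (fun x : ℝ => s i * x + t i) := by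
    intro i; fun_prop
  have hha : s a * X + t a = Y := h.ha
  have hhb : s b * X + t b = Y := h.hb
  -- near the event the other lines keep their side
  have hnear : ∀ᶠ x in 𝓝 X, ∀ c, c ≠ a → c ≠ b →
      (s c * x + t c < s a * x + t a ↔ s c * X + t c < Y) ∧
      (s c * x + t c < s b * x + t b ↔ s c * X + t c < Y) := by
    rw [eventually_all]; intro c
    by_cases hca : c = a
    · exact Filter.Eventually.of_forall (fun _ h => absurd hca h)
    by_cases hcb : c = b
    · exact Filter.Eventually.of_forall (fun _ _ h => absurd hcb h)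
    have hne := h.hne c hca hcb
    rcases lt_or_gt_of_ne hne with h' | h'
    · filter_upwards [(hcont c).continuousAt.eventually_lt (hcont a).continuousAt
        (by rw [hha]; exact h'),
        (hcont c).continuousAt.eventually_lt (hcont b).continuousAt
        (by rw [hhb]; exact h')] with x h1 h2 _ _
      exact ⟨⟨fun _ => h', fun _ => h1⟩, ⟨fun _ => h', fun _ => h2⟩⟩
    · filter_upwards [(hcont a).continuousAt.eventually_lt (hcont c).continuousAt
        (by rw [hha]; exact h'),
        (hcont b).continuousAt.eventually_lt (hcont c).continuousAt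
        (by rw [hhb]; exact h')] with x h1 h2 _ _
      exact ⟨⟨fun h3 => absurd h3 (not_lt.mpr h1.le), fun h3 => absurd h3 (not_lt.mpr h'.le)⟩,
        ⟨fun h3 => absurd h3 (not_lt.mpr h2.le), fun h3 => absurd h3 (not_lt.mpr h'.le)⟩⟩
  obtain ⟨δ, hδ, hball⟩ := Metric.eventually_nhds_iff.mp hnear
  have hga : g a = (s a, t a) := by rw [hg]
  have hgb : g b = (s b, t b) := by rw [hg]
  have hna : g a ≠ g b := fun h' => hab (hginj h')
  have hfa : ∀ x, height (g a) x = s a * x + t a := fun x => by rw [hga]; rfl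
  have hfb : ∀ x, height (g b) x = s b * x + t b := fun x => by rw [hgb]; rfl
  have hxd : ∀ x, X - δ < x → x < X + δ → dist x X < δ := by
    intro x h1 h2
    rw [Real.dist_eq, abs_lt]; constructor <;> linarith
  -- the set of the lines below the event
  set Bel := (Finset.univ : Finset ι).filter (fun i => s i * X + t i < Y) with hBel
  have ha0 : a ∉ Bel := by simp [hBel, hha]
  have hb0 : b ∉ Bel := by simp [hBel, hhb]
  refine ⟨?_, ?_, ?_⟩
  · refine ⟨g a, hmem _, g b, hmem _, hna, ?_, ?_, δ, hδ, ?_, ?_⟩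
    · rw [hfa]; exact hha
    · rw [hfb]; exact hhb
    · intro x hx1 hx2
      have hx1' : X - δ < x := hx1
      have hx2' : x < X := hx2
      have hx := hxd x hx1' (by linarith)
      apply subset_closure
      refine ⟨⟨g a, hmem _, rfl⟩, ?_⟩
      rw [hlev, hfa, ← hcnt]
      congr 1
      ext c
      simp only [hBel, Finset.mem_filter, Finset.mem_univ, true_and]
      by_cases hca : c = a
      · subst hca; simp [hha]
      by_cases hcb : c = b
      · subst hcb
        constructor
        · intro h'; exfalso; nlinarith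
        · intro h'; exfalso; linarith
      · exact (hball hx c hca hcb).1
    · intro x hx1 hx2
      have hx1' : X < x := hx1
      have hx2' : x < X + δ := hx2
      have hx := hxd x (by linarith) hx2'
      apply subset_closure
      refine ⟨⟨g b, hmem _, rfl⟩, ?_⟩
      rw [hlev, hfb, ← hcnt]
      congr 1
      ext c
      simp only [hBel, Finset.mem_filter, Finset.mem_univ, true_and]
      by_cases hca : c = a
      · subst hca
        constructor
        · intro h'; exfalso; nlinarith
        · intro h'; exfalso; linarith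
      by_cases hcb : c = b
      · subst hcb; simp [hhb]
      · exact (hball hx c hca hcb).2
  · refine ⟨g b, hmem _, g a, hmem _, hna.symm, ?_, ?_, δ, hδ, ?_, ?_⟩
    · rw [hfb]; exact hhb
    · rw [hfa]; exact hha
    · intro x hx1 hx2
      have hx1' : X - δ < x := hx1
      have hx2' : x < X := hx2
      have hx := hxd x hx1' (by linarith)
      apply subset_closure
      refine ⟨⟨g b, hmem _, rfl⟩, ?_⟩
      rw [hlev, hfb]
      have h1 : (Finset.univ : Finset ι).filter (fun i => s i * x + t i < s b * x + t b) =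
          insert a Bel := by
        ext c
        simp only [hBel, Finset.mem_filter, Finset.mem_univ, true_and, Finset.mem_insert]
        by_cases hca : c = a
        · subst hca
          simp only [true_or, iff_true]
          nlinarith
        by_cases hcb : c = b
        · subst hcb
          simp [hca, hhb]
        · rw [(hball hx c hca hcb).2]
          simp [hca]
      rw [h1, Finset.card_insert_of_notMem ha0, hcnt]
    · intro x hx1 hx2
      have hx1' : X < x := hx1
      have hx2' : x < X + δ := hx2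
      have hx := hxd x (by linarith) hx2'
      apply subset_closure
      refine ⟨⟨g a, hmem _, rfl⟩, ?_⟩
      rw [hlev, hfa]
      have h1 : (Finset.univ : Finset ι).filter (fun i => s i * x + t i < s a * x + t a) =
          insert b Bel := by
        ext c
        simp only [hBel, Finset.mem_filter, Finset.mem_univ, true_and, Finset.mem_insert]
        by_cases hcb : c = b
        · subst hcb
          simp only [true_or, iff_true]
          nlinarith
        by_cases hca : c = a
        · subst hca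
          simp [hcb, hha]
        · rw [(hball hx c hca hcb).1]
          simp [hcb]
      rw [h1, Finset.card_insert_of_notMem hb0, hcnt]
  · rw [hlev]; exact hcnt

/-- no three lines of the family meet in a point -/
def NoThree (Γ : Finset (ℝ × ℝ)) : Prop :=
  ∀ l ∈ Γ, ∀ m ∈ Γ, ∀ j ∈ Γ, l ≠ m → l ≠ j → m ≠ j →
    ∀ x : ℝ, ¬ (height l x = height m x ∧ height m x = height j x)

/-- the resulting set of lines -/
theorem Two.lines {sg : ℕ → ℝ} (hsg : StrictMono sg) {i r N K F₁ F₂ : ℕ}
    (h : Two sg i r N K F₁ F₂) :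
    ∃ Γ : Finset (ℝ × ℝ), Γ.card = N ∧ (∀ l ∈ Γ, ∃ x, Use i r x ∧ l.1 = sg x) ∧ NoThree Γ ∧
      F₁ + F₂ ≤ complexity Γ (K + 1) := by
  classical
  obtain ⟨ι, R₁, R₂, _, _, _, S₁, S₂, hs, ht, hN, hF₁, hF₂, hT⟩ := h
  set n : ι → ℕ := fun i => (Fintype.equivFin ι i : ℕ) + 1 with hn
  obtain ⟨z, ⟨S₁', h1, h2⟩, ⟨S₂', h3, h4⟩, hsim⟩ := ((perturb hsg S₁ n (fun i => by simp [hn])).and
    ((perturb hsg S₂ n (fun i => by simp [hn])).and
      (ev_simple (fun i => sg (S₁.s i)) S₁.t))).exists
  set t' : ι → ℝ := fun i => S₁.t i + z ^ n i with ht'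
  set g : ι → ℝ × ℝ := fun i => (sg (S₁.s i), t' i) with hg
  have hginj : Function.Injective g := by
    intro i j hij
    by_contra hne
    simp only [hg, Prod.mk.injEq] at hij
    exact hsim.2 i j hne hij.1 hij.2
  set Γ := Finset.univ.image g with hΓ
  have hmem : ∀ l, l ∈ Γ ↔ ∃ i, g i = l := fun l => by simp [hΓ]
  have hc1 : ∀ e, Crs sg S₁.s t' (K + 1) (S₁'.a e) (S₁'.b e) (S₁'.X e) (S₁'.Y e) := by
    intro e
    have := S₁'.crs e
    rw [h1, h2] at this
    exact this
  have hc2 : ∀ e, Crs sg S₁.s t' K (S₂'.a e) (S₂'.b e) (S₂'.X e) (S₂'.Y e) := by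
    intro e
    have := S₂'.crs e
    rw [h3, h4, ← hs, ← ht] at this
    exact this
  refine ⟨Γ, ?_, ?_, ?_, ?_⟩
  · rw [hΓ, Finset.card_image_of_injective _ hginj, Finset.card_univ, hN]
  · intro l hl
    obtain ⟨i, rfl⟩ := (hmem l).mp hl
    exact ⟨S₁.s i, hT i, rfl⟩
  · intro l hl m hm j hj hlm hlj hmj x hx
    obtain ⟨a, rfl⟩ := (hmem l).mp hl
    obtain ⟨b, rfl⟩ := (hmem m).mp hm
    obtain ⟨c, rfl⟩ := (hmem j).mp hj
    exact hsim.1 a b c (fun h => hlm (by rw [h])) (fun h => hlj (by rw [h]))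
      (fun h => hmj (by rw [h])) x hx.1 hx.2
  · set p₁ : R₁ → ℝ × ℝ := fun e => (S₁'.X e, S₁'.Y e) with hp₁
    set p₂ : R₂ → ℝ × ℝ := fun e => (S₂'.X e, S₂'.Y e) with hp₂
    have i1 : Function.Injective p₁ := fun e e' h => S₁'.inj (congrArg Prod.fst h)
    have i2 : Function.Injective p₂ := fun e e' h => S₂'.inj (congrArg Prod.fst h)
    have v1 := fun e => vertices hsg (g := g) rfl hginj hmem (hc1 e)
    have v2 := fun e => vertices hsg (g := g) rfl hginj hmem (hc2 e)
    have hinj : Function.Injective (Sum.elim p₁ p₂) := by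
      rintro (e | e) (e' | e') h
      · simp only [Sum.elim_inl] at h; rw [i1 h]
      · exfalso
        simp only [Sum.elim_inl, Sum.elim_inr] at h
        have a1 := (v1 e).2.2
        have a2 := (v2 e').2.2
        simp only [hp₁, hp₂] at h
        rw [h] at a1
        omega
      · exfalso
        simp only [Sum.elim_inl, Sum.elim_inr] at h
        have a1 := (v1 e').2.2
        have a2 := (v2 e).2.2
        simp only [hp₁, hp₂] at h
        rw [h] at a2
        omega
      · simp only [Sum.elim_inr] at h; rw [i2 h]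
    calc F₁ + F₂ = Fintype.card (R₁ ⊕ R₂) := by rw [Fintype.card_sum, hF₁, hF₂]
      _ = (Set.range (Sum.elim p₁ p₂)).ncard := by
          rw [← Set.image_univ, Set.ncard_image_of_injective _ hinj, Set.ncard_univ,
            Nat.card_eq_fintype_card]
      _ ≤ complexity Γ (K + 1) := by
          unfold complexity
          apply Set.ncard_le_ncard _ (vertices_finite Γ (K + 1))
          rintro _ ⟨e | e, rfl⟩
          · exact (v1 e).1
          · exact (v2 e).2.1

end Pool.Agent.K9h34.KE
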